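import Mathlib

set_option autoImplicit false

/-!
The tile `T l` (with `L = l + 2`) and the basic functionals used to describe it.
Angles are multiples of `th l = π / (3 L)`.
-/

namespace Pool.Agent.H32Tile

open Finset

/-- unit vector in direction `φ` -/
noncomputable def u (φ : ℝ) : ℂ := ⟨Real.cos φ, Real.sin φ⟩

/-- cross product -/
def cross (a z : ℂ) : ℝ := a.re * z.im - a.im * z.re

/-- cross product with the unit vector in direction `φ`: positive on the left of that direction -/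
noncomputable def c (φ : ℝ) (z : ℂ) : ℝ := Real.cos φ * z.im - Real.sin φ * z.re

/-- cross product with the unit vector in direction `π / 3` -/
noncomputable def h (z : ℂ) : ℝ := z.im / 2 - √3 / 2 * z.re

lemma c_add (φ : ℝ) (z w : ℂ) : c φ (z + w) = c φ z + c φ w := by
  simp only [c, Complex.add_re, Complex.add_im]; ring

lemma c_sub (φ : ℝ) (z w : ℂ) : c φ (z - w) = c φ z - c φ w := by
  simp only [c, Complex.sub_re, Complex.sub_im]; ring

lemma c_neg (φ : ℝ) (z : ℂ) : c φ (-z) = - c φ z := by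
  simp only [c, Complex.neg_re, Complex.neg_im]; ring

@[simp] lemma c_zero (φ : ℝ) : c φ 0 = 0 := by simp [c]

lemma c_ofReal (φ r : ℝ) : c φ (r : ℂ) = - (Real.sin φ * r) := by simp [c]

lemma c_natCast (φ : ℝ) (r : ℕ) : c φ (r : ℂ) = - (Real.sin φ * r) := by simp [c]

lemma c_one (φ : ℝ) : c φ 1 = - Real.sin φ := by simp [c]

lemma c_zero_left (z : ℂ) : c 0 z = z.im := by simp [c]

lemma c_u (φ ψ : ℝ) : c φ (u ψ) = Real.sin (ψ - φ) := by
  simp only [c, u, Real.sin_sub]; ring

lemma c_mul_u (φ ψ : ℝ) (z : ℂ) : c φ (u ψ * z) = c (φ - ψ) z := by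
  simp only [c, u, Complex.mul_re, Complex.mul_im, Real.cos_sub, Real.sin_sub]; ring

lemma c_conj (φ : ℝ) (z : ℂ) : c φ ((starRingEnd ℂ) z) = - c (-φ) z := by
  simp only [c, Complex.conj_re, Complex.conj_im, Real.cos_neg, Real.sin_neg]; ring

lemma c_add_pi (φ : ℝ) (z : ℂ) : c (φ + Real.pi) z = - c φ z := by
  simp only [c, Real.cos_add_pi, Real.sin_add_pi]; ring

lemma c_sum {ι : Type*} (φ : ℝ) (s : Finset ι) (f : ι → ℂ) :
    c φ (∑ i ∈ s, f i) = ∑ i ∈ s, c φ (f i) := by
  classical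
  induction s using Finset.induction_on with
  | empty => simp
  | insert a s ha ih => rw [Finset.sum_insert ha, Finset.sum_insert ha, c_add, ih]

lemma c_eq_cross (φ : ℝ) (z : ℂ) : c φ z = cross (u φ) z := rfl

lemma c_pi_div_three (z : ℂ) : c (Real.pi / 3) z = h z := by
  simp only [c, h, Real.cos_pi_div_three, Real.sin_pi_div_three]; ring

lemma c_two_pi_div_three (z : ℂ) : c (2 * Real.pi / 3) z = h z - z.im := by
  have h1 : Real.cos (2 * Real.pi / 3) = -(1 / 2) := by
    rw [show 2 * Real.pi / 3 = Real.pi - Real.pi / 3 by ring, Real.cos_pi_sub,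
      Real.cos_pi_div_three]
  have h2 : Real.sin (2 * Real.pi / 3) = √3 / 2 := by
    rw [show 2 * Real.pi / 3 = Real.pi - Real.pi / 3 by ring, Real.sin_pi_sub,
      Real.sin_pi_div_three]
  simp only [c, h, h1, h2]; ring

lemma h_add (z w : ℂ) : h (z + w) = h z + h w := by
  simp only [h, Complex.add_re, Complex.add_im]; ring

lemma h_sub (z w : ℂ) : h (z - w) = h z - h w := by
  simp only [h, Complex.sub_re, Complex.sub_im]; ring

lemma h_natCast (k : ℕ) : h (k : ℂ) = - (√3 / 2 * k) := by simp [h]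

lemma h_one : h 1 = - (√3 / 2) := by simp [h]

/-- the three-directions identity -/
lemma three (α β γ : ℝ) (z : ℂ) :
    Real.sin (γ - α) * c β z = Real.sin (γ - β) * c α z + Real.sin (β - α) * c γ z := by
  simp only [c, Real.sin_sub]; ring

/-- the Pluecker identity -/
lemma plu (a b d z : ℂ) : cross a d * cross b z = cross b d * cross a z + cross a b * cross d z := by
  simp only [cross]; ring

variable (l : ℕ)

/-- the basic angle `π / (3 (l + 2))` -/
noncomputable def th : ℝ := Real.pi / (3 * ((l : ℝ) + 2))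

lemma th_pos : 0 < th l := by unfold th; positivity

lemma mul_th : ((l : ℝ) + 2) * th l = Real.pi / 3 := by
  unfold th; field_simp

lemma sin_nonneg_mul {t : ℝ} (h0 : 0 ≤ t) (h1 : t ≤ 3 * ((l : ℝ) + 2)) : 0 ≤ Real.sin (t * th l) := by
  apply Real.sin_nonneg_of_nonneg_of_le_pi
  · exact mul_nonneg h0 (th_pos l).le
  · have := mul_th l
    nlinarith [mul_le_mul_of_nonneg_right h1 (th_pos l).le]

lemma sin_pos_mul {t : ℝ} (h0 : 0 < t) (h1 : t < 3 * ((l : ℝ) + 2)) : 0 < Real.sin (t * th l) := by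
  apply Real.sin_pos_of_pos_of_lt_pi
  · exact mul_pos h0 (th_pos l)
  · have := mul_th l
    nlinarith [mul_lt_mul_of_pos_right h1 (th_pos l)]

/-- `S n = ∑_{b=1}^n sin (b θ)` -/
noncomputable def S (n : ℕ) : ℝ := ∑ b ∈ range n, Real.sin (((b : ℝ) + 1) * th l)

@[simp] lemma S_zero : S l 0 = 0 := by simp [S]

lemma S_succ (n : ℕ) : S l (n + 1) = S l n + Real.sin (((n : ℝ) + 1) * th l) := by
  simp [S, Finset.sum_range_succ]

lemma S_top : S l (l + 2) = S l (l + 1) + √3 / 2 := by
  rw [S_succ]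
  congr 1
  rw [← Real.sin_pi_div_three]
  congr 1
  rw [← mul_th l]; push_cast; ring

lemma S_nonneg {n : ℕ} (hn : n ≤ l + 2) : 0 ≤ S l n := by
  unfold S
  apply Finset.sum_nonneg
  intro b hb
  rw [Finset.mem_range] at hb
  apply sin_nonneg_mul
  · positivity
  · have : (b : ℝ) + 1 ≤ (l : ℝ) + 2 := by exact_mod_cast (by omega : b + 1 ≤ l + 2)
    nlinarith [(Nat.cast_nonneg l : (0 : ℝ) ≤ l)]

lemma S_mono {m n : ℕ} (hmn : m ≤ n) (hn : n ≤ l + 2) : S l m ≤ S l n := by
  unfold S
  apply Finset.sum_le_sum_of_subset_of_nonneg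
  · exact Finset.range_subset_range.2 hmn
  · intro b hb _
    rw [Finset.mem_range] at hb
    apply sin_nonneg_mul
    · positivity
    · have : (b : ℝ) + 1 ≤ (l : ℝ) + 2 := by exact_mod_cast (by omega : b + 1 ≤ l + 2)
      nlinarith [(Nat.cast_nonneg l : (0 : ℝ) ≤ l)]

lemma S_pos {n : ℕ} (h0 : 0 < n) (hn : n ≤ l + 2) : 0 < S l n := by
  have h1 : S l 1 ≤ S l n := S_mono l h0 hn
  have h2 : 0 < S l 1 := by
    rw [S_succ, S_zero]
    simp only [Nat.cast_zero, zero_add, one_mul]
    have := sin_pos_mul l (t := 1) one_pos (by nlinarith [(Nat.cast_nonneg l : (0 : ℝ) ≤ l)])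
    simpa using this
  linarith

/-- `ρ`, the inradius of the central polygon -/
noncomputable def rho : ℝ := S l (l + 2) + S l (l + 1)

/-- partial sums of the unit vectors in directions `θ, 2θ, …` -/
noncomputable def D (n : ℕ) : ℂ := ∑ a ∈ range n, u (((a : ℝ) + 1) * th l)

@[simp] lemma D_zero : D l 0 = 0 := by simp [D]

lemma D_succ (n : ℕ) : D l (n + 1) = D l n + u (((n : ℝ) + 1) * th l) := by
  simp [D, Finset.sum_range_succ]

lemma c_D (φ : ℝ) (n : ℕ) :
    c φ (D l n) = ∑ a ∈ range n, Real.sin (((a : ℝ) + 1) * th l - φ) := by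
  rw [D, c_sum]; simp only [c_u]

lemma im_D (n : ℕ) : (D l n).im = S l n := by
  rw [← c_zero_left, c_D]; simp [S]

/-- `c` in direction `(t+1)θ` of the partial sum `D t` -/
lemma c_D_self (t : ℕ) : c (((t : ℝ) + 1) * th l) (D l t) = - S l t := by
  rw [c_D, S, ← Finset.sum_range_reflect, ← Finset.sum_neg_distrib]
  apply Finset.sum_congr rfl
  intro a ha
  rw [Finset.mem_range] at ha
  rw [← Real.sin_neg]
  congr 1
  rw [Nat.cast_sub (by omega), Nat.cast_sub (by omega)]
  push_cast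
  ring

/-- `c` in direction `(t+1)θ` of the partial sum `D (t + n)` -/
lemma c_D_add (t n : ℕ) :
    c (((t : ℝ) + 1) * th l) (D l (t + n)) = - S l t + ∑ b ∈ range n, Real.sin ((b : ℝ) * th l) := by
  induction n with
  | zero => simp [c_D_self]
  | succ n ih =>
    rw [← add_assoc, D_succ, c_add, ih, c_u, Finset.sum_range_succ, add_assoc]
    congr 3
    push_cast; ring

lemma sum_sin_shift (n : ℕ) : ∑ b ∈ range (n + 1), Real.sin ((b : ℝ) * th l) = S l n := by
  rw [Finset.sum_range_succ', S]; simp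

lemma c_D_add_succ (t n : ℕ) :
    c (((t : ℝ) + 1) * th l) (D l (t + (n + 1))) = S l n - S l t := by
  rw [c_D_add, sum_sin_shift]; ring

/-- the apex-to-tip vector of the left side -/
noncomputable def q : ℂ := D l (l + 2)

/-- the apex-to-tip vector of the right side -/
noncomputable def A : ℂ := 1 + D l (l + 1)

lemma im_q : (q l).im = S l (l + 2) := im_D l _

lemma im_A : (A l).im = S l (l + 1) := by simp [A, im_D]

lemma h_q : h (q l) = - S l (l + 1) := by
  have h1 := c_D_add_succ l (l + 1) 0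
  rw [S_zero, zero_sub] at h1
  rw [← h1, q, ← c_pi_div_three, ← mul_th l]
  congr 2
  push_cast; ring

lemma c_A {t : ℕ} (ht : t ≤ l + 1) : c ((t : ℝ) * th l) (A l) = S l (l + 1 - t) - S l t := by
  rw [A, c_add, c_one]
  rcases t with _ | t
  · simp [c_zero_left, im_D]
  · obtain ⟨n, hn⟩ : ∃ n, l + 1 = t + (n + 1) := ⟨l - t, by omega⟩
    have h1 := c_D_add_succ l t n
    rw [hn, S_succ, show t + (n + 1) - (t + 1) = n by omega]
    push_cast
    rw [h1]; ring

lemma h_A : h (A l) = - S l (l + 2) := by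
  have h1 : h (1 + D l (l + 1)) = h 1 + h (D l (l + 1)) := h_add _ _
  rw [A, h1, h_one]
  have h2 := c_D_self l (l + 1)
  have h3 : (((l + 1 : ℕ) : ℝ) + 1) * th l = Real.pi / 3 := by rw [← mul_th l]; push_cast; ring
  rw [h3, c_pi_div_three] at h2
  rw [h2, S_top]; ring

/-- the tile -/
def T : Set ℂ := {z | (∀ t : ℕ, t ≤ l + 1 → 0 ≤ c ((t : ℝ) * th l) z + S l t) ∧
  (∃ t : ℕ, t ≤ l + 1 ∧ c (((t : ℝ) + 1) * th l) z + S l t ≤ 0) ∧ 0 ≤ h z - z.im + rho l}

variable {l}

lemma T_im {z : ℂ} (hz : z ∈ T l) : 0 ≤ z.im := by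
  have := hz.1 0 (by omega)
  simpa [c_zero_left] using this

lemma T_right {z : ℂ} (hz : z ∈ T l) {t : ℕ} (ht : t ≤ l + 1) : 0 ≤ c ((t : ℝ) * th l) z + S l t :=
  hz.1 t ht

lemma T_base {z : ℂ} (hz : z ∈ T l) : 0 ≤ h z - z.im + rho l := hz.2.2

/-- in the cone between directions `0` and `π/3`, expressed with a side of slope `t+1` -/
lemma h_nonpos_of {z : ℂ} (h0 : 0 ≤ z.im) {t : ℕ} (ht : t ≤ l + 1)
    (h1 : c (((t : ℝ) + 1) * th l) z ≤ 0) : h z ≤ 0 := by
  have h2 := three 0 (((t : ℝ) + 1) * th l) (Real.pi / 3) z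
  rw [sub_zero, sub_zero, c_zero_left, c_pi_div_three] at h2
  have h3 : 0 < Real.sin (((t : ℝ) + 1) * th l) := by
    apply sin_pos_mul
    · positivity
    · have : (t : ℝ) ≤ l + 1 := by exact_mod_cast ht
      nlinarith [(Nat.cast_nonneg l : (0 : ℝ) ≤ l)]
  have h4 : 0 ≤ Real.sin (Real.pi / 3 - ((t : ℝ) + 1) * th l) := by
    rw [← mul_th l, ← sub_mul]
    have : (t : ℝ) ≤ l + 1 := by exact_mod_cast ht
    apply sin_nonneg_mul
    · linarith
    · nlinarith [(Nat.cast_nonneg l : (0 : ℝ) ≤ l), (Nat.cast_nonneg t : (0 : ℝ) ≤ t)]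
  have h5 : 0 < Real.sin (Real.pi / 3) := by rw [Real.sin_pi_div_three]; positivity
  nlinarith [mul_nonneg h4 h0, mul_nonneg h5.le (neg_nonneg.2 h1)]

lemma T_h {z : ℂ} (hz : z ∈ T l) : h z ≤ 0 := by
  obtain ⟨t, ht, h1⟩ := hz.2.1
  refine h_nonpos_of (T_im hz) ht ?_
  have := S_nonneg l (n := t) (by omega)
  linarith

/-- order of the lines above the height of `D (l+1)` -/
lemma line_order {z : ℂ} (h0 : S l (l + 1) ≤ z.im)
    (h1 : ∃ t : ℕ, t ≤ l + 1 ∧ c (((t : ℝ) + 1) * th l) z + S l t ≤ 0) :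
    h z + S l (l + 1) ≤ 0 := by
  obtain ⟨t, ht, h1⟩ := h1
  have hD : h (D l (l + 1)) = - S l (l + 1) := by
    have h2 := c_D_self l (l + 1)
    have h3 : (((l + 1 : ℕ) : ℝ) + 1) * th l = Real.pi / 3 := by rw [← mul_th l]; push_cast; ring
    rw [h3, c_pi_div_three] at h2
    exact h2
  have key : h (z - D l (l + 1)) ≤ 0 := by
    refine h_nonpos_of (l := l) (t := t) ?_ ht ?_
    · rw [Complex.sub_im, im_D]; linarith
    · rw [c_sub]
      obtain ⟨n, hn⟩ : ∃ n, l + 1 = t + n := ⟨l + 1 - t, by omega⟩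
      rw [hn, c_D_add]
      have : 0 ≤ ∑ b ∈ range n, Real.sin ((b : ℝ) * th l) := by
        apply Finset.sum_nonneg
        intro b hb
        rw [Finset.mem_range] at hb
        apply sin_nonneg_mul
        · positivity
        · have : (b : ℝ) ≤ l + 1 := by exact_mod_cast (by omega : b ≤ l + 1)
          nlinarith [(Nat.cast_nonneg l : (0 : ℝ) ≤ l)]
      linarith
  rw [h_sub, hD] at key
  linarith

lemma T_im_le {z : ℂ} (hz : z ∈ T l) : z.im ≤ S l (l + 2) := by
  by_contra hcon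
  push Not at hcon
  have h1 : S l (l + 1) ≤ S l (l + 2) := S_mono l (by omega) le_rfl
  have h2 := line_order (l := l) (by linarith) hz.2.1
  have h3 := T_base hz
  rw [rho] at h3
  linarith

/-- the line in direction `π/3` through the right end of the base -/
lemma T_h_lower {z : ℂ} (hz : z ∈ T l) : 0 ≤ h z + S l (l + 2) := by
  have h1 := three (((l : ℝ) + 1) * th l) (Real.pi / 3) (2 * Real.pi / 3) (z - A l)
  rw [c_pi_div_three, c_two_pi_div_three] at h1
  have h2 : c (((l : ℝ) + 1) * th l) (z - A l) = c (((l : ℝ) + 1) * th l) z + S l (l + 1) := by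
    have := c_A l (t := l + 1) le_rfl
    rw [Nat.sub_self, S_zero, zero_sub] at this
    push_cast at this
    rw [c_sub, this]; ring
  have h3 := T_right hz (t := l + 1) le_rfl
  push_cast at h3
  rw [← h2] at h3
  have h4 : 0 ≤ h (z - A l) - (z - A l).im := by
    rw [h_sub, h_A, Complex.sub_im, im_A]
    have := T_base hz
    rw [rho] at this
    linarith
  have hl0 : (0 : ℝ) ≤ l := Nat.cast_nonneg l
  have h5 : 0 < Real.sin (2 * Real.pi / 3 - ((l : ℝ) + 1) * th l) := by
    rw [show 2 * Real.pi / 3 - ((l : ℝ) + 1) * th l = ((l : ℝ) + 3) * th l by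
      have := mul_th l
      linear_combination (-2) * this]
    exact sin_pos_mul l (by positivity) (by linarith)
  have h6 : 0 ≤ Real.sin (2 * Real.pi / 3 - Real.pi / 3) := by
    rw [show 2 * Real.pi / 3 - Real.pi / 3 = Real.pi / 3 by ring, Real.sin_pi_div_three]; positivity
  have h7 : 0 ≤ Real.sin (Real.pi / 3 - ((l : ℝ) + 1) * th l) := by
    rw [show Real.pi / 3 - ((l : ℝ) + 1) * th l = (1 : ℝ) * th l by
      have := mul_th l
      linear_combination (-1) * this]
    exact sin_nonneg_mul l (by positivity) (by linarith)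
  have h8 : 0 ≤ h (z - A l) := by
    by_contra hneg
    push Not at hneg
    nlinarith [mul_nonneg h6 h3, mul_nonneg h7 h4, mul_pos h5 (neg_pos.2 hneg)]
  rw [h_sub, h_A] at h8
  linarith

end Pool.Agent.H32Tile
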