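import Mathlib

set_option autoImplicit false

namespace Pool.Agent.H32Tile

/-- the Euclidean plane -/
abbrev Plane := EuclideanSpace ℝ (Fin 2)

/-- a body: a compact set homeomorphic to the closed unit disk -/
def IsBody (C : Set Plane) : Prop :=
  IsCompact C ∧ Nonempty (C ≃ₜ Metric.closedBall (0 : Plane) 1)

/-- `F` is a tiling of the plane by congruent copies of `C` (reflections allowed) -/
structure IsTiling (C : Set Plane) (F : Set (Set Plane)) : Prop where
  congruent : ∀ t ∈ F, ∃ g : Plane ≃ᵢ Plane, t = g '' C
  cover : ⋃₀ F = Set.univ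
  disjoint : ∀ s ∈ F, ∀ t ∈ F, s ≠ t → Disjoint (interior s) (interior t)

/-- the neighbourhood of the tile `t` in `F`: the union of all members of `F` meeting `t` -/
def neighbourhood (F : Set (Set Plane)) (t : Set Plane) : Set Plane :=
  ⋃₀ {s | s ∈ F ∧ (s ∩ t).Nonempty}

end Pool.Agent.H32Tile
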