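import Pool.Agent.H32Tile.Pin

set_option autoImplicit false

/-!
The tile is a closed topological disk.
-/

namespace Pool.Agent.H32Tile

open Finset

variable (l : ℕ)

/-- abscissa of the line number `t` at height `y` -/
noncomputable def fl (t : ℕ) (y : ℝ) : ℝ :=
  (Real.cos (((t : ℝ) + 1) * th l) * y + S l t) / Real.sin (((t : ℝ) + 1) * th l)

/-- abscissa of the left side at height `y` (minimum of the first `n + 1` lines) -/
noncomputable def Fr : ℕ → ℝ → ℝ
  | 0, y => fl l 0 y
  | n + 1, y => min (Fr n y) (fl l (n + 1) y)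

variable {l}

lemma fl_le_iff {t : ℕ} (ht : t ≤ l + 1) (y x : ℝ) :
    fl l t y ≤ x ↔ c (((t : ℝ) + 1) * th l) ⟨x, y⟩ + S l t ≤ 0 := by
  rw [fl, div_le_iff₀ (sin_line_pos ht), c]
  constructor <;> intro h <;> linarith

lemma le_fl_iff {t : ℕ} (ht : t ≤ l + 1) (y x : ℝ) :
    x ≤ fl l t y ↔ 0 ≤ c (((t : ℝ) + 1) * th l) ⟨x, y⟩ + S l t := by
  rw [fl, le_div_iff₀ (sin_line_pos ht), c]
  constructor <;> intro h <;> linarith

lemma Fr_le_iff (n : ℕ) (y x : ℝ) : Fr l n y ≤ x ↔ ∃ t : ℕ, t ≤ n ∧ fl l t y ≤ x := by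
  induction n with
  | zero =>
    rw [Fr]
    constructor
    · intro h; exact ⟨0, le_rfl, h⟩
    · rintro ⟨t, ht, h⟩
      rw [Nat.le_zero.1 ht] at h
      exact h
  | succ n ih =>
    rw [Fr, min_le_iff, ih]
    constructor
    · rintro (⟨t, ht, h⟩ | h)
      · exact ⟨t, by omega, h⟩
      · exact ⟨n + 1, le_rfl, h⟩
    · rintro ⟨t, ht, h⟩
      rcases Nat.lt_or_ge n t with h1 | h1
      · have : t = n + 1 := by omega
        subst this
        exact Or.inr h
      · exact Or.inl ⟨t, h1, h⟩

lemma le_Fr_iff (n : ℕ) (y x : ℝ) : x ≤ Fr l n y ↔ ∀ t : ℕ, t ≤ n → x ≤ fl l t y := by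
  induction n with
  | zero =>
    rw [Fr]
    constructor
    · intro h t ht
      rw [Nat.le_zero.1 ht]
      exact h
    · intro h; exact h 0 le_rfl
  | succ n ih =>
    rw [Fr, le_min_iff, ih]
    constructor
    · rintro ⟨h1, h2⟩ t ht
      rcases Nat.lt_or_ge n t with h3 | h3
      · have : t = n + 1 := by omega
        subst this
        exact h2
      · exact h1 t h3
    · intro h
      exact ⟨fun t ht => h t (by omega), h (n + 1) le_rfl⟩

lemma Fr_continuous (n : ℕ) : Continuous (Fr l n) := by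
  induction n with
  | zero =>
    have : Fr l 0 = fl l 0 := by funext y; rfl
    rw [this]
    unfold fl
    fun_prop
  | succ n ih =>
    have : Fr l (n + 1) = fun y => min (Fr l n y) (fl l (n + 1) y) := by funext y; rfl
    rw [this]
    apply Continuous.min ih
    unfold fl
    fun_prop

/-- description of the tile by horizontal slices -/
lemma mem_T_iff (z : ℂ) : z ∈ T l ↔ 0 ≤ z.im ∧ 0 ≤ z.re - Fr l (l + 1) z.im ∧
    z.re - Fr l (l + 1) z.im ≤ 1 ∧
    (z.re - Fr l (l + 1) z.im) * (√3 / 2) ≤ S l (l + 2) - z.im := by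
  have h3 : (0 : ℝ) < √3 / 2 := by positivity
  have hs := S_top' (l := l)
  set F := Fr l (l + 1) z.im with hF
  have hz : (⟨z.re, z.im⟩ : ℂ) = z := rfl
  have hshift : ∀ t : ℕ, c (((t : ℝ) + 1) * th l) ⟨z.re - 1, z.im⟩ + S l t =
      c (((t : ℝ) + 1) * th l) z + S l (t + 1) := by
    intro t
    rw [S_succ]
    simp only [c]
    ring
  constructor
  · intro hzT
    have h0 := T_im hzT
    have h1 : F ≤ z.re := by
      rw [hF, Fr_le_iff]
      obtain ⟨t, ht, h2⟩ := hzT.2.1
      exact ⟨t, ht, (fl_le_iff ht _ _).2 h2⟩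
    have h2 : z.re - 1 ≤ F := by
      rw [hF, le_Fr_iff]
      intro t ht
      rw [le_fl_iff ht, hshift]
      rcases Nat.lt_or_ge t (l + 1) with h3 | h3
      · have := T_right hzT (t := t + 1) (by omega)
        push_cast at this
        exact this
      · have h4 : t = l + 1 := by omega
        subst h4
        rw [L_th, c_pi_div_three]
        exact T_h_lower hzT
    refine ⟨h0, by linarith, by linarith, ?_⟩
    rcases le_or_gt z.im (S l (l + 1)) with h4 | h4
    · have : (z.re - F) * (√3 / 2) ≤ 1 * (√3 / 2) := mul_le_mul_of_nonneg_right (by linarith) h3.le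
      linarith
    · obtain ⟨t, ht, h5⟩ := (Fr_le_iff (l := l) (l + 1) z.im F).1 le_rfl
      have h6 := line_order (l := l) (z := ⟨F, z.im⟩) h4.le ⟨t, ht, (fl_le_iff ht _ _).1 h5⟩
      have h7 := T_base hzT
      rw [rho] at h7
      simp only [h] at h6 h7
      linarith
  · rintro ⟨h0, h1, h2, h4⟩
    refine ⟨fun t ht => ?_, ?_, ?_⟩
    · rcases t with _ | t
      · simpa [c_zero_left] using h0
      · have h5 := (le_Fr_iff (l := l) (l + 1) z.im (z.re - 1)).1 (by linarith) t (by omega)
        rw [le_fl_iff (by omega), hshift] at h5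
        push_cast
        exact h5
    · obtain ⟨t, ht, h5⟩ := (Fr_le_iff (l := l) (l + 1) z.im z.re).1 (by linarith)
      exact ⟨t, ht, (fl_le_iff ht _ _).1 h5⟩
    · have h5 := (le_Fr_iff (l := l) (l + 1) z.im F).1 le_rfl (l + 1) le_rfl
      rw [le_fl_iff le_rfl, L_th, c_pi_div_three] at h5
      rw [rho]
      simp only [h] at h5 ⊢
      linarith

variable (l)

/-- the shear taking the trapezoid `K` to the tile -/
noncomputable def shear : ℂ ≃ₜ ℂ where
  toFun z := z + ((Fr l (l + 1) z.im : ℝ) : ℂ)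
  invFun z := z - ((Fr l (l + 1) z.im : ℝ) : ℂ)
  left_inv z := by simp
  right_inv z := by simp
  continuous_toFun := by
    have := Fr_continuous (l := l) (l + 1)
    fun_prop
  continuous_invFun := by
    have := Fr_continuous (l := l) (l + 1)
    fun_prop

/-- a trapezoid -/
def K : Set ℂ := {z | 0 ≤ z.im ∧ 0 ≤ z.re ∧ z.re ≤ 1 ∧ z.re * (√3 / 2) ≤ S l (l + 2) - z.im}

lemma T_eq_image : T l = shear l '' K l := by
  rw [← Homeomorph.preimage_symm]
  ext z
  rw [mem_T_iff, Set.mem_preimage]
  have h1 : (shear l).symm z = z - ((Fr l (l + 1) z.im : ℝ) : ℂ) := rfl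
  rw [h1, K, Set.mem_ofPred_eq]
  simp

lemma K_convex : Convex ℝ (K l) := by
  intro x hx y hy a b ha hb hab
  obtain ⟨x1, x2, x3, x4⟩ := hx
  obtain ⟨y1, y2, y3, y4⟩ := hy
  have hre : (a • x + b • y).re = a * x.re + b * y.re := by simp
  have him : (a • x + b • y).im = a * x.im + b * y.im := by simp
  refine ⟨?_, ?_, ?_, ?_⟩
  · rw [him]; positivity
  · rw [hre]; positivity
  · rw [hre]
    nlinarith [mul_le_mul_of_nonneg_left x3 ha, mul_le_mul_of_nonneg_left y3 hb]
  · rw [hre, him]
    have h1 := mul_le_mul_of_nonneg_left x4 ha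
    have h2 := mul_le_mul_of_nonneg_left y4 hb
    have h3 : S l (l + 2) = a * S l (l + 2) + b * S l (l + 2) := by rw [← add_mul, hab, one_mul]
    rw [h3]
    linarith

lemma K_closed : IsClosed (K l) := by
  apply IsClosed.inter
  · exact isClosed_le continuous_const Complex.continuous_im
  apply IsClosed.inter
  · exact isClosed_le continuous_const Complex.continuous_re
  apply IsClosed.inter
  · exact isClosed_le Complex.continuous_re continuous_const
  · exact isClosed_le (Complex.continuous_re.mul continuous_const)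
      (continuous_const.sub Complex.continuous_im)

lemma K_bounded : Bornology.IsBounded (K l) := by
  rw [isBounded_iff_forall_norm_le]
  refine ⟨1 + S l (l + 2), fun z hz => ?_⟩
  obtain ⟨h1, h2, h3, h4⟩ := hz
  have h5 := Complex.norm_le_abs_re_add_abs_im z
  rw [abs_of_nonneg h1, abs_of_nonneg h2] at h5
  have h6 : 0 ≤ z.re * (√3 / 2) := by positivity
  linarith

lemma K_interior : (interior (K l)).Nonempty := by
  have hs := S_top l
  have hs1 := S_nonneg l (n := l + 1) (by omega)
  have h3 : (0 : ℝ) < √3 / 2 := by positivity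
  have hopen : IsOpen {z : ℂ | 0 < z.im ∧ 0 < z.re ∧ z.re < 1 ∧
      z.re * (√3 / 2) < S l (l + 2) - z.im} := by
    apply IsOpen.inter
    · exact isOpen_lt continuous_const Complex.continuous_im
    apply IsOpen.inter
    · exact isOpen_lt continuous_const Complex.continuous_re
    apply IsOpen.inter
    · exact isOpen_lt Complex.continuous_re continuous_const
    · exact isOpen_lt (Complex.continuous_re.mul continuous_const)
        (continuous_const.sub Complex.continuous_im)
  refine ⟨⟨1 / 2, S l (l + 2) / 4⟩, ?_⟩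
  rw [mem_interior]
  refine ⟨_, fun z hz => ?_, hopen, ?_⟩
  · exact ⟨hz.1.le, hz.2.1.le, hz.2.2.1.le, hz.2.2.2.le⟩
  · refine ⟨?_, ?_, ?_, ?_⟩ <;> simp only <;> linarith

lemma T_interior : (interior (T l)).Nonempty := by
  rw [T_eq_image, ← Homeomorph.image_interior]
  exact (K_interior l).image _

lemma T_compact : IsCompact (T l) := by
  rw [T_eq_image]
  exact (Metric.isCompact_of_isClosed_isBounded (K_closed l) (K_bounded l)).image
    (shear l).continuous

lemma T_disk : Nonempty (T l ≃ₜ Metric.closedBall (0 : ℂ) 1) := by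
  obtain ⟨g, _, hg, _⟩ := exists_homeomorph_image_interior_closure_frontier_eq_unitBall
    (K_convex l) (K_interior l) (K_bounded l)
  rw [(K_closed l).closure_eq] at hg
  exact ⟨(Homeomorph.setCongr (T_eq_image l)).trans
    (((shear l).image (K l)).symm.trans ((g.image (K l)).trans (Homeomorph.setCongr hg)))⟩

end Pool.Agent.H32Tile
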