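import Pool.Agent.H32Tile.Basic

set_option autoImplicit false

/-!
The fan of `6 L` rotated copies of the tile around the origin, and the central regular `6L`-gon.
-/

namespace Pool.Agent.H32Tile

open Finset

lemma c_add_two_pi (φ : ℝ) (z : ℂ) : c (φ + 2 * Real.pi) z = c φ z := by
  simp only [c, Real.cos_add_two_pi, Real.sin_add_two_pi]

lemma c_iu (φ : ℝ) : c φ (Complex.I * u φ) = 1 := by
  simp only [c, u, Complex.mul_re, Complex.mul_im, Complex.I_re, Complex.I_im]
  linear_combination Real.sin_sq_add_cos_sq φ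

lemma c_ofReal_mul (φ ε : ℝ) (d : ℂ) : c φ ((ε : ℂ) * d) = ε * c φ d := by
  simp only [c, Complex.re_ofReal_mul, Complex.im_ofReal_mul]; ring

lemma int_dir {s : Set ℂ} {p : ℂ} (hp : p ∈ interior s) (d : ℂ) :
    ∃ ε : ℝ, 0 < ε ∧ p + (ε : ℂ) * d ∈ s := by
  have h1 : s ∈ nhds p := mem_interior_iff_mem_nhds.1 hp
  have h2 : Filter.Tendsto (fun ε : ℝ => p + (ε : ℂ) * d) (nhds 0) (nhds p) := by
    have : Continuous (fun ε : ℝ => p + (ε : ℂ) * d) := by fun_prop
    simpa using this.tendsto 0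
  have h3 := h2 h1
  rw [Filter.mem_map, Metric.mem_nhds_iff] at h3
  obtain ⟨δ, hδ, h4⟩ := h3
  refine ⟨δ / 2, by linarith, ?_⟩
  apply h4
  rw [Metric.mem_ball, Real.dist_eq, sub_zero, abs_of_pos (by linarith)]
  linarith

lemma int_pos {s : Set ℂ} {p : ℂ} (hp : p ∈ interior s) (φ b : ℝ)
    (hs : ∀ z ∈ s, 0 ≤ c φ z + b) : 0 < c φ p + b := by
  obtain ⟨ε, hε, h1⟩ := int_dir hp (-(Complex.I * u φ))
  have h2 := hs _ h1
  rw [c_add, c_ofReal_mul, c_neg, c_iu] at h2
  linarith

lemma int_neg {s : Set ℂ} {p : ℂ} (hp : p ∈ interior s) (φ b : ℝ)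
    (hs : ∀ z ∈ s, c φ z + b ≤ 0) : c φ p + b < 0 := by
  obtain ⟨ε, hε, h1⟩ := int_dir hp (Complex.I * u φ)
  have h2 := hs _ h1
  rw [c_add, c_ofReal_mul, c_iu] at h2
  linarith

section interior

variable {l : ℕ} {p : ℂ}

lemma int_right (hp : p ∈ interior (T l)) {t : ℕ} (ht : t ≤ l + 1) :
    0 < c ((t : ℝ) * th l) p + S l t := int_pos hp _ _ (fun _ hz => T_right hz ht)

lemma int_im (hp : p ∈ interior (T l)) : 0 < p.im := by
  have := int_right hp (t := 0) (by omega)
  simpa [c_zero_left] using this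

lemma int_base (hp : p ∈ interior (T l)) : 0 < h p - p.im + rho l := by
  have := int_pos hp (2 * Real.pi / 3) (rho l) (fun z hz => by
    rw [c_two_pi_div_three]; exact T_base hz)
  rwa [c_two_pi_div_three] at this

lemma int_h (hp : p ∈ interior (T l)) : h p < 0 := by
  have := int_neg hp (Real.pi / 3) 0 (fun z hz => by
    rw [c_pi_div_three, add_zero]; exact T_h hz)
  rwa [c_pi_div_three, add_zero] at this

lemma int_h_lower (hp : p ∈ interior (T l)) : 0 < h p + S l (l + 2) := by
  have := int_pos hp (Real.pi / 3) (S l (l + 2)) (fun z hz => by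
    rw [c_pi_div_three]; exact T_h_lower hz)
  rwa [c_pi_div_three] at this

lemma int_im_lt (hp : p ∈ interior (T l)) : p.im < S l (l + 2) := by
  have := int_neg hp 0 (-S l (l + 2)) (fun z hz => by
    rw [c_zero_left]; linarith [T_im_le hz])
  rw [c_zero_left] at this
  linarith

lemma sin_line_pos {t : ℕ} (ht : t ≤ l + 1) : 0 < Real.sin (((t : ℝ) + 1) * th l) := by
  apply sin_pos_mul
  · positivity
  · have : (t : ℝ) ≤ l + 1 := by exact_mod_cast ht
    nlinarith [(Nat.cast_nonneg l : (0 : ℝ) ≤ l)]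

lemma int_left (hp : p ∈ interior (T l)) :
    ∃ t : ℕ, t ≤ l + 1 ∧ c (((t : ℝ) + 1) * th l) p + S l t < 0 := by
  obtain ⟨ε, hε, h1⟩ := int_dir hp (-1)
  obtain ⟨t, ht, h2⟩ := h1.2.1
  refine ⟨t, ht, ?_⟩
  rw [c_add, c_ofReal_mul, c_neg, c_one] at h2
  have := mul_pos hε (sin_line_pos ht)
  linarith

lemma int_order (hp : p ∈ interior (T l)) (h0 : S l (l + 1) ≤ p.im) :
    h p + S l (l + 1) < 0 := by
  obtain ⟨ε, hε, h1⟩ := int_dir hp (-1)
  have h2 := line_order (l := l) (z := p + (ε : ℂ) * (-1)) (by simpa using h0) h1.2.1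
  have h3 : h (p + (ε : ℂ) * (-1)) = h p + √3 / 2 * ε := by
    simp only [h, Complex.add_re, Complex.add_im, Complex.re_ofReal_mul, Complex.im_ofReal_mul,
      Complex.neg_re, Complex.neg_im, Complex.one_re, Complex.one_im]
    ring
  rw [h3] at h2
  have : 0 < √3 / 2 * ε := by positivity
  linarith

end interior

variable (l : ℕ)

/-- side functionals of the central polygon -/
noncomputable def be (m : ℕ) (z : ℂ) : ℝ := c ((m : ℝ) * th l) z + rho l

lemma three_L_th : 3 * ((l : ℝ) + 2) * th l = Real.pi := by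
  have := mul_th l
  linear_combination 3 * this

lemma c_half (m : ℕ) (z : ℂ) :
    c (((m + 3 * (l + 2) : ℕ) : ℝ) * th l) z = - c ((m : ℝ) * th l) z := by
  rw [← c_add_pi, ← three_L_th l]
  congr 1
  push_cast; ring

lemma c_period (m : ℕ) (z : ℂ) :
    c (((m + 6 * (l + 2) : ℕ) : ℝ) * th l) z = c ((m : ℝ) * th l) z := by
  rw [← c_add_two_pi ((m : ℝ) * th l), ← three_L_th l]
  congr 1
  push_cast; ring

lemma be_period (m : ℕ) (z : ℂ) : be l (m + 6 * (l + 2)) z = be l m z := by
  rw [be, be, c_period]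

lemma be_half (m : ℕ) (z : ℂ) : be l (m + 3 * (l + 2)) z + be l m z = 2 * rho l := by
  rw [be, be, c_half]; ring

lemma be_mod (m : ℕ) (z : ℂ) : be l (m % (6 * (l + 2))) z = be l m z := by
  have h1 : ∀ n k : ℕ, be l (k + 6 * (l + 2) * n) z = be l k z := by
    intro n
    induction n with
    | zero => intro k; simp
    | succ n ih =>
      intro k
      rw [show k + 6 * (l + 2) * (n + 1) = (k + 6 * (l + 2) * n) + 6 * (l + 2) by ring,
        be_period, ih]
  conv_rhs => rw [← Nat.mod_add_div m (6 * (l + 2))]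
  rw [h1]

lemma rho_pos : 0 < rho l := by
  have h1 := S_pos l (n := l + 2) (by omega) le_rfl
  have h2 := S_nonneg l (n := l + 1) (by omega)
  rw [rho]; linarith

lemma zero_mem_T : (0 : ℂ) ∈ T l := by
  refine ⟨fun t ht => ?_, ⟨0, by omega, ?_⟩, ?_⟩
  · rw [c_zero, zero_add]; exact S_nonneg l (by omega)
  · simp
  · have := rho_pos l
    simp only [h, Complex.zero_re, Complex.zero_im]
    linarith

lemma c_polar (φ : ℝ) (z : ℂ) : c φ z = ‖z‖ * Real.sin (Complex.arg z - φ) := by
  have h1 := Complex.norm_mul_cos_arg z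
  have h2 := Complex.norm_mul_sin_arg z
  rw [Real.sin_sub, c, ← h1, ← h2]; ring

lemma exists_switch (P : ℕ → Prop) {a b : ℕ} (hab : a ≤ b) (ha : P a) (hb : ¬ P b) :
    ∃ n, P n ∧ ¬ P (n + 1) := by
  by_contra hcon
  push Not at hcon
  apply hb
  induction b, hab using Nat.le_induction with
  | base => exact ha
  | succ n hn ih => exact hcon n (by_contra fun h => hb (hcon n (by tauto)))

variable {l}

/-- every point of the central polygon is covered by the fan -/
lemma fan_cover {z : ℂ} (hz : ∀ m : ℕ, 0 ≤ be l m z) : ∃ j : ℕ, u (-((j : ℝ) * th l)) * z ∈ T l := by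
  by_cases h0 : z = 0
  · exact ⟨0, by rw [h0, mul_zero]; exact zero_mem_T l⟩
  have hn : 0 < ‖z‖ := norm_pos_iff.2 h0
  have hth := th_pos l
  set a : ℝ := Complex.arg z + 2 * Real.pi with ha
  have ha1 : Real.pi < a := by have := Complex.neg_pi_lt_arg z; linarith
  set n : ℕ := ⌊a / th l⌋₊ with hndef
  have hn1 : (n : ℝ) * th l ≤ a := by
    have := Nat.floor_le (div_nonneg (Real.pi_pos.le.trans ha1.le) hth.le)
    rwa [← hndef, le_div_iff₀ hth] at this
  have hn2 : a < ((n : ℝ) + 1) * th l := by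
    have := Nat.lt_floor_add_one (a / th l)
    rwa [← hndef, div_lt_iff₀ hth] at this
  have h3 := three_L_th l
  have hn3 : 3 * (l + 2) ≤ n := by
    have h4 : 3 * ((l : ℝ) + 2) < (n : ℝ) + 1 := by
      by_contra hcon
      push Not at hcon
      have := mul_le_mul_of_nonneg_right hcon hth.le
      linarith
    have h5 : 3 * (l + 2) < n + 1 := by exact_mod_cast h4
    omega
  obtain ⟨j, hj⟩ : ∃ j, n = j + (l + 1) := ⟨n - (l + 1), by omega⟩
  have hcp : ∀ m : ℝ, c (m * th l) z = ‖z‖ * Real.sin (a - m * th l) := by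
    intro m
    rw [c_polar, ha]
    congr 1
    rw [show Complex.arg z + 2 * Real.pi - m * th l = (Complex.arg z - m * th l) + 2 * Real.pi by
      ring, Real.sin_add_two_pi]
  have hnj : (n : ℝ) = j + (l + 1) := by rw [hj]; push_cast; ring
  have hmul := mul_th l
  set P : ℕ → Prop := fun j => ∀ t : ℕ, t ≤ l + 1 → 0 ≤ c (((t : ℝ) + j) * th l) z + S l t with hP
  have hPj : P j := by
    intro t ht
    have ht' : (t : ℝ) ≤ l + 1 := by exact_mod_cast ht
    have h6 : 0 ≤ c (((t : ℝ) + j) * th l) z := by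
      rw [hcp]
      apply mul_nonneg hn.le
      apply Real.sin_nonneg_of_nonneg_of_le_pi
      · have : ((t : ℝ) + j) * th l ≤ (n : ℝ) * th l :=
          mul_le_mul_of_nonneg_right (by linarith) hth.le
        linarith
      · have h7 : (j : ℝ) * th l ≤ ((t : ℝ) + j) * th l :=
          mul_le_mul_of_nonneg_right (by linarith [(Nat.cast_nonneg t : (0 : ℝ) ≤ t)]) hth.le
        have h8 : ((n : ℝ) + 1) * th l = (j : ℝ) * th l + Real.pi / 3 := by
          rw [hnj, ← hmul]; ring
        linarith [Real.pi_pos]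
    have := S_nonneg l (n := t) (by omega)
    linarith
  have hPn : ¬ P (j + 3 * (l + 2)) := by
    intro hcon
    have h6 := hcon 0 (by omega)
    rw [S_zero, add_zero, Nat.cast_zero, zero_add, c_half] at h6
    have h7 : 0 < c ((j : ℝ) * th l) z := by
      rw [hcp]
      apply mul_pos hn
      apply Real.sin_pos_of_pos_of_lt_pi
      · have : (n : ℝ) * th l = (j : ℝ) * th l + ((l : ℝ) + 1) * th l := by rw [hnj]; ring
        have : 0 < ((l : ℝ) + 1) * th l := by positivity
        linarith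
      · have h8 : ((n : ℝ) + 1) * th l = (j : ℝ) * th l + Real.pi / 3 := by
          rw [hnj, ← hmul]; ring
        linarith [Real.pi_pos]
    linarith
  obtain ⟨i, hi1, hi2⟩ := exists_switch P (by omega) hPj hPn
  refine ⟨i, fun t ht => ?_, ?_, ?_⟩
  · rw [c_mul_u, sub_neg_eq_add, ← add_mul]
    exact hi1 t ht
  · rw [hP] at hi2
    push Not at hi2
    obtain ⟨t, ht, h6⟩ := hi2
    refine ⟨t, ht, ?_⟩
    rw [c_mul_u, sub_neg_eq_add, ← add_mul]
    rw [Nat.cast_add, Nat.cast_one] at h6
    rw [show (t : ℝ) + 1 + i = t + (i + 1) by ring]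
    exact h6.le
  · rw [← c_two_pi_div_three, c_mul_u, sub_neg_eq_add]
    have h6 := hz (2 * (l + 2) + i)
    rw [be] at h6
    rw [show 2 * Real.pi / 3 + (i : ℝ) * th l = ((2 * (l + 2) + i : ℕ) : ℝ) * th l by
      push_cast
      linear_combination (-2) * hmul]
    exact h6

/-- fan tiles do not overlap -/
lemma fan_disj {z : ℂ} (hz : z ∈ interior (T l)) {s : ℕ} (hs1 : 1 ≤ s) (hs2 : s ≤ 3 * (l + 2))
    (hz' : u (-((s : ℝ) * th l)) * z ∈ T l) : False := by
  have hs2' : (s : ℝ) ≤ 3 * ((l : ℝ) + 2) := by exact_mod_cast hs2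
  have hs1' : (1 : ℝ) ≤ s := by exact_mod_cast hs1
  have hmul := mul_th l
  have hl0 : (0 : ℝ) ≤ l := Nat.cast_nonneg l
  have key0 : ∀ m : ℝ, c (m * th l) (u (-((s : ℝ) * th l)) * z) = c ((m + s) * th l) z := by
    intro m
    rw [c_mul_u, sub_neg_eq_add, ← add_mul]
  have him := T_im hz'
  rw [← c_zero_left] at him
  have h1 := key0 0
  rw [zero_mul, zero_add] at h1
  rw [h1] at him
  rcases le_or_gt (l + 2) s with hs3 | hs3
  · -- separated by the line in direction `π / 3`
    have hs3' : (l : ℝ) + 2 ≤ s := by exact_mod_cast hs3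
    have h2 := three 0 (Real.pi / 3) ((s : ℝ) * th l) z
    rw [sub_zero, sub_zero, c_pi_div_three, c_zero_left] at h2
    have h3 : 0 ≤ Real.sin ((s : ℝ) * th l) := sin_nonneg_mul l (by linarith) hs2'
    have h4 : 0 < Real.sin (Real.pi / 3) := by rw [Real.sin_pi_div_three]; positivity
    have h5 := int_h hz
    have h6 := int_im hz
    rcases eq_or_lt_of_le hs3 with h7 | h7
    · rw [show (s : ℝ) * th l = Real.pi / 3 by rw [← hmul, ← h7]; push_cast; ring,
        c_pi_div_three] at him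
      linarith
    · have h7' : (l : ℝ) + 2 < s := by exact_mod_cast h7
      have h8 : 0 < Real.sin ((s : ℝ) * th l - Real.pi / 3) := by
        rw [← hmul, ← sub_mul]
        exact sin_pos_mul l (by linarith) (by linarith)
      nlinarith [mul_pos h8 h6, mul_nonneg h4.le him, mul_nonneg h3 (neg_nonneg.2 h5.le)]
  · obtain ⟨t, ht, h2⟩ := int_left hz
    rcases le_or_gt s (t + 1) with h3 | h3
    · obtain ⟨r, hr⟩ : ∃ r, t + 1 = r + s := ⟨t + 1 - s, by omega⟩
      have h4 := T_right hz' (t := r) (by omega)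
      rw [key0] at h4
      have h5 : (t : ℝ) + 1 = r + s := by exact_mod_cast hr
      rw [← h5] at h4
      have h6 := S_mono l (m := r) (n := t) (by omega) (by omega)
      linarith
    · have h4 := T_h hz'
      rw [← c_pi_div_three, ← hmul, key0] at h4
      have h5 := three (((t : ℝ) + 1) * th l) ((s : ℝ) * th l) (((l : ℝ) + 2 + s) * th l) z
      have h3' : (t : ℝ) + 1 < s := by exact_mod_cast h3
      have ht' : (t : ℝ) ≤ l + 1 := by exact_mod_cast ht
      have hs3' : (s : ℝ) < l + 2 := by exact_mod_cast hs3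
      have h6 : 0 ≤ Real.sin (((l : ℝ) + 2 + s) * th l - ((t : ℝ) + 1) * th l) := by
        rw [← sub_mul]
        exact sin_nonneg_mul l (by linarith) (by linarith [(Nat.cast_nonneg t : (0 : ℝ) ≤ t)])
      have h7 : 0 < Real.sin (((l : ℝ) + 2 + s) * th l - (s : ℝ) * th l) := by
        rw [← sub_mul]
        exact sin_pos_mul l (by linarith) (by linarith)
      have h8 : 0 ≤ Real.sin ((s : ℝ) * th l - ((t : ℝ) + 1) * th l) := by
        rw [← sub_mul]
        exact sin_nonneg_mul l (by linarith) (by linarith [(Nat.cast_nonneg t : (0 : ℝ) ≤ t)])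
      have h9 : 0 ≤ c (((t : ℝ) + 1) * th l) z := by
        by_contra hneg
        push Not at hneg
        nlinarith [mul_nonneg h6 him, mul_nonneg h8 (neg_nonneg.2 h4), mul_pos h7 (neg_pos.2 hneg)]
      have := S_nonneg l (n := t) (by omega)
      linarith


/-! ### closed forms -/

lemma two_sin_mul (x y : ℝ) : 2 * Real.sin x * Real.sin y = Real.cos (y - x) - Real.cos (y + x) := by
  rw [Real.cos_sub, Real.cos_add]; ring

variable (l)

lemma two_sin_S (n : ℕ) : 2 * Real.sin (th l / 2) * S l n =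
    Real.cos (th l / 2) - Real.cos (((n : ℝ) + 1 / 2) * th l) := by
  induction n with
  | zero =>
    rw [S_zero, show (((0 : ℕ) : ℝ) + 1 / 2) * th l = th l / 2 by push_cast; ring]; ring
  | succ n ih =>
    rw [S_succ, mul_add, ih, two_sin_mul,
      show ((n : ℝ) + 1) * th l - th l / 2 = ((n : ℝ) + 1 / 2) * th l by ring,
      show ((n : ℝ) + 1) * th l + th l / 2 = (((n + 1 : ℕ) : ℝ) + 1 / 2) * th l by push_cast; ring]
    ring

lemma two_sin_rho : 2 * Real.sin (th l / 2) * rho l = Real.cos (th l / 2) := by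
  rw [rho, mul_add, two_sin_S, two_sin_S,
    show ((((l + 2 : ℕ) : ℝ) + 1 / 2) * th l) = Real.pi / 3 + th l / 2 by
      rw [← mul_th l]; push_cast; ring,
    show ((((l + 1 : ℕ) : ℝ) + 1 / 2) * th l) = Real.pi / 3 - th l / 2 by
      rw [← mul_th l]; push_cast; ring, Real.cos_add, Real.cos_sub, Real.cos_pi_div_three]
  ring

lemma two_sin_c_D (φ : ℝ) (n : ℕ) : 2 * Real.sin (th l / 2) * c φ (D l n) =
    Real.cos (th l / 2 - φ) - Real.cos (((n : ℝ) + 1 / 2) * th l - φ) := by
  induction n with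
  | zero =>
    rw [D_zero, c_zero, show (((0 : ℕ) : ℝ) + 1 / 2) * th l = th l / 2 by push_cast; ring]; ring
  | succ n ih =>
    rw [D_succ, c_add, mul_add, ih, c_u, two_sin_mul,
      show ((n : ℝ) + 1) * th l - φ - th l / 2 = ((n : ℝ) + 1 / 2) * th l - φ by ring,
      show ((n : ℝ) + 1) * th l - φ + th l / 2 = (((n + 1 : ℕ) : ℝ) + 1 / 2) * th l - φ by
        push_cast; ring]
    ring

lemma two_sin_q (φ : ℝ) : 2 * Real.sin (th l / 2) * (c φ (q l) + rho l) =
    Real.cos (th l / 2) - Real.cos (φ - 2 * ((l : ℝ) + 2) * th l - th l / 2) := by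
  have hmul := mul_th l
  rw [mul_add, two_sin_rho, q, two_sin_c_D]
  have h1 : Real.cos (th l / 2 - φ) = Real.cos (φ - th l / 2) := by
    rw [← Real.cos_neg]; congr 1; ring
  have h2 : Real.cos (((l + 2 : ℕ) + 1 / 2) * th l - φ) = Real.cos ((φ - th l / 2) - Real.pi / 3) := by
    rw [← Real.cos_neg]; congr 1; rw [← hmul]; push_cast; ring
  have h3 : Real.cos (φ - 2 * ((l : ℝ) + 2) * th l - th l / 2) =
      Real.cos ((φ - th l / 2) - Real.pi / 3 - Real.pi / 3) := by
    congr 1; rw [← hmul]; ring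
  rw [h1, h2, h3]
  have h4 : Real.cos (φ - th l / 2) =
      Real.cos (((φ - th l / 2) - Real.pi / 3) + Real.pi / 3) := by congr 1; ring
  rw [h4, Real.cos_add, Real.cos_sub ((φ - th l / 2) - Real.pi / 3), Real.cos_pi_div_three]
  ring

lemma c_A_shift (φ : ℝ) : c φ (A l) = c (φ + th l) (q l) := by
  rw [A, q, c_add, c_one, c_D, c_D, Finset.sum_range_succ' _ (l + 1)]
  have : ∀ a : ℕ, Real.sin (((a : ℝ) + 1) * th l - φ) =
      Real.sin ((((a + 1 : ℕ) : ℝ) + 1) * th l - (φ + th l)) := by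
    intro a; congr 1; push_cast; ring
  simp only [this]
  have h2 : Real.sin ((((0 : ℕ) : ℝ) + 1) * th l - (φ + th l)) = - Real.sin φ := by
    rw [← Real.sin_neg]; congr 1; push_cast; ring
  rw [h2]; ring

lemma half_th_sin_pos : 0 < Real.sin (th l / 2) := by
  have := sin_pos_mul l (t := 1 / 2) (by norm_num) (by
    linarith [(Nat.cast_nonneg l : (0 : ℝ) ≤ l)])
  rwa [show (1 / 2 : ℝ) * th l = th l / 2 by ring] at this

/-- `q` lies in the central polygon (relevant range) -/
lemma q_be {m : ℕ} (h1 : m ≤ 5 * (l + 2)) : 0 ≤ be l m (q l) ∧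
    (m ≠ 2 * (l + 2) → m ≠ 2 * (l + 2) + 1 → 0 < be l m (q l)) := by
  have hq := two_sin_q l ((m : ℝ) * th l)
  have hs := half_th_sin_pos l
  have hth := th_pos l
  have h3 := three_L_th l
  have h1' : (m : ℝ) ≤ 5 * ((l : ℝ) + 2) := by exact_mod_cast h1
  have hm0 : (0 : ℝ) ≤ m := Nat.cast_nonneg m
  have hl0 : (0 : ℝ) ≤ l := Nat.cast_nonneg l
  set x : ℝ := (m : ℝ) - 2 * ((l : ℝ) + 2) - 1 / 2 with hx
  rw [show (m : ℝ) * th l - 2 * ((l : ℝ) + 2) * th l - th l / 2 = x * th l by rw [hx]; ring,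
    ← Real.cos_abs (x * th l), abs_mul, abs_of_pos hth] at hq
  have hxle : |x| * th l ≤ Real.pi := by
    rw [← h3]
    apply mul_le_mul_of_nonneg_right _ hth.le
    rw [abs_le]
    constructor <;> rw [hx] <;> linarith
  have hxge : 1 / 2 ≤ |x| := by
    rcases le_or_gt m (2 * (l + 2)) with hm | hm
    · have hm' : (m : ℝ) ≤ 2 * ((l : ℝ) + 2) := by exact_mod_cast hm
      rw [le_abs]; right; rw [hx]; linarith
    · have hm' : 2 * ((l : ℝ) + 2) + 1 ≤ m := by exact_mod_cast hm
      rw [le_abs]; left; rw [hx]; linarith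
  constructor
  · have h4 : Real.cos (|x| * th l) ≤ Real.cos (th l / 2) := by
      apply Real.cos_le_cos_of_nonneg_of_le_pi (by positivity) hxle
      nlinarith
    rw [be]
    by_contra hneg
    push Not at hneg
    nlinarith [mul_pos hs (neg_pos.2 hneg)]
  · intro h5 h6
    have hxgt : 1 / 2 < |x| := by
      rcases lt_or_ge m (2 * (l + 2)) with hm | hm
      · have hm' : (m : ℝ) + 1 ≤ 2 * ((l : ℝ) + 2) := by exact_mod_cast hm
        rw [lt_abs]; right; rw [hx]; linarith
      · have hm2 : 2 * (l + 2) + 2 ≤ m := by omega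
        have hm' : 2 * ((l : ℝ) + 2) + 2 ≤ m := by exact_mod_cast hm2
        rw [lt_abs]; left; rw [hx]; linarith
    have h4 : Real.cos (|x| * th l) < Real.cos (th l / 2) := by
      apply Real.cos_lt_cos_of_nonneg_of_le_pi (by positivity) hxle
      nlinarith
    rw [be]
    by_contra hneg
    push Not at hneg
    nlinarith [mul_nonneg hs.le (neg_nonneg.2 hneg)]

/-- value of the side functionals at `q` on the far side -/
lemma q_be_eq (i : ℕ) : be l (2 * (l + 2) + (i + 1)) (q l) = S l i := by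
  have h1 := two_sin_q l (((2 * (l + 2) + (i + 1) : ℕ) : ℝ) * th l)
  have h2 := two_sin_S l i
  rw [show ((2 * (l + 2) + (i + 1) : ℕ) : ℝ) * th l - 2 * ((l : ℝ) + 2) * th l - th l / 2 =
    ((i : ℝ) + 1 / 2) * th l by push_cast; ring, ← h2] at h1
  have := half_th_sin_pos l
  exact mul_left_cancel₀ (by positivity) h1

lemma q_be_eq' {i : ℕ} (hi : i ≤ 2 * (l + 2)) : be l (2 * (l + 2) - i) (q l) = S l i := by
  have h1 := two_sin_q l (((2 * (l + 2) - i : ℕ) : ℝ) * th l)
  have h2 := two_sin_S l i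
  have h3 : Real.cos (((2 * (l + 2) - i : ℕ) : ℝ) * th l - 2 * ((l : ℝ) + 2) * th l - th l / 2) =
      Real.cos (((i : ℝ) + 1 / 2) * th l) := by
    rw [← Real.cos_neg]
    congr 1
    rw [Nat.cast_sub hi]
    push_cast; ring
  rw [h3, ← h2] at h1
  have := half_th_sin_pos l
  exact mul_left_cancel₀ (by positivity) h1

lemma lam_q {t : ℕ} (ht : t ≤ l + 1) : c (((t : ℝ) + 1) * th l) (q l) + S l t = S l (l + 1 - t) := by
  obtain ⟨n, hn⟩ : ∃ n, l + 1 = t + n := ⟨l + 1 - t, by omega⟩
  have h1 := c_D_add_succ l t n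
  rw [show t + (n + 1) = l + 2 by omega] at h1
  rw [q, h1, show l + 1 - t = n by omega]; ring

lemma base_q : h (q l) - (q l).im + rho l = 0 := by
  rw [h_q, im_q, rho]; ring

lemma base_A : h (A l) - (A l).im + rho l = 0 := by
  rw [h_A, im_A, rho]; ring

variable {l}

/-- the tile is to the right of the chord from `0` to `q` -/
lemma T_cross_q {p : ℂ} (hp : p ∈ T l) : cross (q l) p ≤ 0 := by
  obtain ⟨t, ht, h1⟩ := hp.2.1
  have h2 := lam_q l ht
  have h3 := T_im hp
  have h4 := T_im_le hp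
  have h5 := sin_line_pos ht
  have h6 := im_q l
  have h7 := S_nonneg l (n := t) (by omega)
  have h8 := S_nonneg l (n := l + 1 - t) (by omega)
  have key : (c (((t : ℝ) + 1) * th l) p + S l t) * (q l).im =
      ((q l).im - p.im) * S l t + p.im * (c (((t : ℝ) + 1) * th l) (q l) + S l t) +
        Real.sin (((t : ℝ) + 1) * th l) * cross (q l) p := by
    simp only [c, cross]; ring
  rw [h2, h6] at key
  have h9 : 0 < S l (l + 2) := S_pos l (by omega) le_rfl
  have h10 : (c (((t : ℝ) + 1) * th l) p + S l t) * S l (l + 2) ≤ 0 :=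
    mul_nonpos_of_nonpos_of_nonneg h1 h9.le
  have h11 : 0 ≤ (S l (l + 2) - p.im) * S l t := mul_nonneg (by linarith) h7
  have h12 : 0 ≤ p.im * S l (l + 1 - t) := mul_nonneg h3 h8
  by_contra hneg
  push Not at hneg
  have := mul_pos h5 hneg
  linarith

lemma c_q_neg {m : ℕ} (h1 : 2 * (l + 2) ≤ m) (h2 : m ≤ 3 * (l + 2)) :
    c ((m : ℝ) * th l) (q l) ≤ 0 := by
  rw [q, c_D]
  apply Finset.sum_nonpos
  intro a ha
  rw [Finset.mem_range] at ha
  have ha' : (a : ℝ) + 1 ≤ l + 2 := by exact_mod_cast ha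
  have h1' : 2 * ((l : ℝ) + 2) ≤ m := by exact_mod_cast h1
  have h2' : (m : ℝ) ≤ 3 * ((l : ℝ) + 2) := by exact_mod_cast h2
  have ha0 : (0 : ℝ) ≤ a := Nat.cast_nonneg a
  have hl0 : (0 : ℝ) ≤ l := Nat.cast_nonneg l
  rw [← neg_nonneg, ← Real.sin_neg, show -(((a : ℝ) + 1) * th l - (m : ℝ) * th l) =
    ((m : ℝ) - (a + 1)) * th l by ring]
  exact sin_nonneg_mul l (by linarith) (by linarith)

lemma c_q_pos {m : ℕ} (h1 : 5 * (l + 2) ≤ m) (h2 : m ≤ 6 * (l + 2)) :
    0 ≤ c ((m : ℝ) * th l) (q l) := by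
  obtain ⟨n, hn⟩ : ∃ n, m = n + 3 * (l + 2) := ⟨m - 3 * (l + 2), by omega⟩
  rw [hn, c_half, neg_nonneg]
  exact c_q_neg (by omega) (by omega)

/-- the tile is contained in the central polygon -/
lemma T_be {p : ℂ} (hp : p ∈ T l) {m : ℕ} (hm : m ≤ 6 * (l + 2)) : 0 ≤ be l m p ∧
    ((0 < h p - p.im + rho l ∨ (m + 1 ≠ 2 * (l + 2) ∧ m ≠ 2 * (l + 2) ∧ m ≠ 2 * (l + 2) + 1)) →
      0 < be l m p) := by
  have hmul := mul_th l
  have hl0 : (0 : ℝ) ≤ l := Nat.cast_nonneg l
  have hcr := T_cross_q hp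
  have him := T_im hp
  have hba := T_base hp
  have hrho := rho_pos l
  have hm0 : (0 : ℝ) ≤ m := Nat.cast_nonneg m
  rcases le_or_gt m (l + 1) with hm1 | hm1
  · -- first range
    have h1 := T_right hp hm1
    have h2 := S_mono l (m := m) (n := l + 1) hm1 (by omega)
    have h3 : 0 < S l (l + 2) := S_pos l (by omega) le_rfl
    have h4 : 0 < be l m p := by rw [be, rho]; linarith
    exact ⟨h4.le, fun _ => h4⟩
  rcases le_or_gt m (2 * (l + 2)) with hm2 | hm2
  · -- second range
    have hm1' : (l : ℝ) + 2 ≤ m := by exact_mod_cast hm1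
    have hm2' : (m : ℝ) ≤ 2 * ((l : ℝ) + 2) := by exact_mod_cast hm2
    have h1 := three (((l : ℝ) + 1) * th l) ((m : ℝ) * th l) (2 * Real.pi / 3) (p - A l)
    have h2 : c (((l : ℝ) + 1) * th l) (p - A l) = c (((l : ℝ) + 1) * th l) p + S l (l + 1) := by
      have := c_A l (t := l + 1) le_rfl
      rw [Nat.sub_self, S_zero, zero_sub] at this
      push_cast at this
      rw [c_sub, this]; ring
    have h3 := T_right hp (t := l + 1) le_rfl
    push_cast at h3
    rw [← h2] at h3
    have h4 : c (2 * Real.pi / 3) (p - A l) = h p - p.im + rho l := by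
      rw [c_two_pi_div_three, h_sub, Complex.sub_im]
      linarith [base_A l]
    rw [h4] at h1
    have h5 : 0 < Real.sin (2 * Real.pi / 3 - ((l : ℝ) + 1) * th l) := by
      rw [show 2 * Real.pi / 3 - ((l : ℝ) + 1) * th l = ((l : ℝ) + 3) * th l by
        linear_combination (-2) * hmul]
      exact sin_pos_mul l (by positivity) (by linarith)
    have h6 : 0 ≤ Real.sin (2 * Real.pi / 3 - (m : ℝ) * th l) := by
      rw [show 2 * Real.pi / 3 - (m : ℝ) * th l = (2 * ((l : ℝ) + 2) - m) * th l by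
        linear_combination (-2) * hmul]
      exact sin_nonneg_mul l (by linarith) (by linarith)
    have h7 : 0 < Real.sin ((m : ℝ) * th l - ((l : ℝ) + 1) * th l) := by
      rw [← sub_mul]
      exact sin_pos_mul l (by linarith) (by linarith)
    have h8 : be l m p = c ((m : ℝ) * th l) (p - A l) + be l (m + 1) (q l) := by
      have : c ((m : ℝ) * th l) (A l) = c (((m + 1 : ℕ) : ℝ) * th l) (q l) := by
        rw [c_A_shift]; congr 1; push_cast; ring
      rw [be, be, c_sub, this]; ring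
    have h9 := q_be l (m := m + 1) (by omega)
    have h10 : 0 ≤ c ((m : ℝ) * th l) (p - A l) := by
      by_contra hneg
      push Not at hneg
      nlinarith [mul_nonneg h6 h3, mul_nonneg h7.le hba, mul_pos h5 (neg_pos.2 hneg)]
    refine ⟨by rw [h8]; linarith [h9.1], fun h11 => ?_⟩
    rcases h11 with h11 | ⟨h11, h12, h13⟩
    · have h14 : 0 < c ((m : ℝ) * th l) (p - A l) := by
        by_contra hneg
        push Not at hneg
        nlinarith [mul_nonneg h6 h3, mul_pos h7 h11, mul_nonneg h5.le (neg_nonneg.2 hneg)]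
      rw [h8]; linarith [h9.1]
    · have := h9.2 h11 (by omega)
      rw [h8]; linarith
  rcases le_or_gt (c ((m : ℝ) * th l) (q l)) 0 with hcq | hcq
  · rcases le_or_gt m (5 * (l + 2)) with hm3 | hm3
    · -- third range
      have hm2' : 2 * ((l : ℝ) + 2) < m := by exact_mod_cast hm2
      have hm3' : (m : ℝ) ≤ 5 * ((l : ℝ) + 2) := by exact_mod_cast hm3
      have h1 : rho l * c ((m : ℝ) * th l) (p - q l) =
          (- c ((m : ℝ) * th l) (q l)) * (h p - p.im + rho l) +
            Real.sin ((m : ℝ) * th l - 2 * Real.pi / 3) * (- cross (q l) p) := by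
        have h2 : rho l = - c (2 * Real.pi / 3) (q l) := by
          rw [c_two_pi_div_three]; linarith [base_q l]
        have h3 : h p - p.im + rho l = c (2 * Real.pi / 3) (p - q l) := by
          rw [c_two_pi_div_three, h_sub, Complex.sub_im]; linarith [base_q l]
        rw [h3, h2]
        simp only [c, cross, Complex.sub_re, Complex.sub_im, Real.sin_sub]
        ring
      have h2 : 0 ≤ Real.sin ((m : ℝ) * th l - 2 * Real.pi / 3) := by
        rw [show (m : ℝ) * th l - 2 * Real.pi / 3 = ((m : ℝ) - 2 * ((l : ℝ) + 2)) * th l by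
          linear_combination 2 * hmul]
        exact sin_nonneg_mul l (by linarith) (by linarith)
      have h3 : be l m p = c ((m : ℝ) * th l) (p - q l) + be l m (q l) := by
        rw [be, be, c_sub]; ring
      have h4 := q_be l hm3
      have h5 : 0 ≤ c ((m : ℝ) * th l) (p - q l) := by
        by_contra hneg
        push Not at hneg
        nlinarith [mul_nonneg h2 (neg_nonneg.2 hcr), mul_nonneg (neg_nonneg.2 hcq) hba,
          mul_pos hrho (neg_pos.2 hneg)]
      refine ⟨by rw [h3]; linarith [h4.1], fun h11 => ?_⟩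
      rcases h11 with h11 | ⟨h11, h12, h13⟩
      · rcases eq_or_lt_of_le hcq with h6 | h6
        · have : be l m (q l) = rho l := by rw [be, h6]; ring
          rw [h3]; linarith
        · have h14 : 0 < c ((m : ℝ) * th l) (p - q l) := by
            by_contra hneg
            push Not at hneg
            nlinarith [mul_nonneg h2 (neg_nonneg.2 hcr), mul_pos (neg_pos.2 h6) h11,
              mul_nonneg hrho.le (neg_nonneg.2 hneg)]
          rw [h3]; linarith [h4.1]
      · rw [h3]; linarith [h4.2 h12 h13]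
    · -- excluded
      have h1 := c_q_pos (l := l) hm3.le hm
      have h2 : c ((m : ℝ) * th l) (q l) = 0 := le_antisymm hcq h1
      have hm3' : 5 * ((l : ℝ) + 2) < m := by exact_mod_cast hm3
      have hm' : (m : ℝ) ≤ 6 * ((l : ℝ) + 2) := by exact_mod_cast hm
      have h3 : (q l).im * c ((m : ℝ) * th l) p =
          (- cross (q l) p) * (- Real.sin ((m : ℝ) * th l)) + p.im * c ((m : ℝ) * th l) (q l) := by
        simp only [c, cross]; ring
      have h4 : 0 ≤ - Real.sin ((m : ℝ) * th l) := by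
        rw [← Real.sin_sub_pi, ← three_L_th l, ← sub_mul]
        exact sin_nonneg_mul l (by linarith) (by linarith)
      have h5 : 0 < (q l).im := by rw [im_q]; exact S_pos l (by omega) le_rfl
      have h6 : 0 ≤ c ((m : ℝ) * th l) p := by
        by_contra hneg
        push Not at hneg
        nlinarith [mul_nonneg (neg_nonneg.2 hcr) h4, mul_nonneg him h1, mul_pos h5 (neg_pos.2 hneg)]
      have h7 : 0 < be l m p := by rw [be]; linarith
      exact ⟨h7.le, fun _ => h7⟩
  · -- fourth range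
    have hm3 : 3 * (l + 2) ≤ m := by
      by_contra hcon
      push Not at hcon
      have := c_q_neg (l := l) hm2.le hcon.le
      linarith
    have hm3' : 3 * ((l : ℝ) + 2) ≤ m := by exact_mod_cast hm3
    have hm' : (m : ℝ) ≤ 6 * ((l : ℝ) + 2) := by exact_mod_cast hm
    have h3 : (q l).im * c ((m : ℝ) * th l) p =
        (- cross (q l) p) * (- Real.sin ((m : ℝ) * th l)) + p.im * c ((m : ℝ) * th l) (q l) := by
      simp only [c, cross]; ring
    have h4 : 0 ≤ - Real.sin ((m : ℝ) * th l) := by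
      rw [← Real.sin_sub_pi, ← three_L_th l, ← sub_mul]
      exact sin_nonneg_mul l (by linarith) (by linarith)
    have h5 : 0 < (q l).im := by rw [im_q]; exact S_pos l (by omega) le_rfl
    have h6 : 0 ≤ c ((m : ℝ) * th l) p := by
      by_contra hneg
      push Not at hneg
      nlinarith [mul_nonneg (neg_nonneg.2 hcr) h4, mul_nonneg him hcq.le,
        mul_pos h5 (neg_pos.2 hneg)]
    have h7 : 0 < be l m p := by rw [be]; linarith
    exact ⟨h7.le, fun _ => h7⟩

lemma T_be_all {p : ℂ} (hp : p ∈ T l) (m : ℕ) : 0 ≤ be l m p := by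
  rw [← be_mod]
  exact (T_be hp (Nat.mod_lt _ (by omega)).le).1

end Pool.Agent.H32Tile
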