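import Pool.Agent.H32Tile.Defs
import Pool.Agent.H32Tile.Disk

set_option autoImplicit false

/-!
The final statement, transferred from `ℂ` to the Euclidean plane.
-/

namespace Pool.Agent.H32Tile

/-- identification of the Euclidean plane with `ℂ` -/
noncomputable def pe : Plane ≃ₗᵢ[ℝ] ℂ := Complex.orthonormalBasisOneI.repr.symm

variable (l : ℕ)

/-- the body -/
def body : Set Plane := pe ⁻¹' T l

/-- placing maps in the plane -/
noncomputable def gp (k : Ind l) : Plane ≃ᵢ Plane :=
  (pe.toIsometryEquiv.trans (G l k)).trans pe.toIsometryEquiv.symm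

/-- the tiles -/
def tile (k : Ind l) : Set Plane := {x | G l k (pe x) ∈ T l}

lemma tile_eq (k : Ind l) : tile l k = gp l k ⁻¹' body l := by
  ext x
  simp only [tile, gp, body, Set.mem_preimage, IsometryEquiv.trans_apply]
  change _ ↔ pe (pe.symm (G l k (pe x))) ∈ T l
  rw [LinearIsometryEquiv.apply_symm_apply]
  rfl

lemma body_isBody : IsBody (body l) := by
  have h1 : body l = pe.symm.toHomeomorph '' T l := by
    rw [body]
    exact (pe.symm.toEquiv.image_eq_preimage_symm (T l)).symm
  constructor
  · rw [h1]; exact (T_compact l).image (Homeomorph.continuous _)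
  · obtain ⟨g⟩ := T_disk l
    have h2 : pe.symm.toHomeomorph '' Metric.closedBall (0 : ℂ) 1 =
        Metric.closedBall (0 : Plane) 1 := by
      have := pe.symm.image_closedBall 0 1
      rw [map_zero] at this
      exact this
    exact ⟨(Homeomorph.setCongr h1).trans ((pe.symm.toHomeomorph.image (T l)).symm.trans
      (g.trans ((pe.symm.toHomeomorph.image (Metric.closedBall (0 : ℂ) 1)).trans
        (Homeomorph.setCongr h2))))⟩

lemma mem_interior_tile {k : Ind l} {x : Plane} :
    x ∈ interior (tile l k) ↔ G l k (pe x) ∈ interior (T l) := by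
  have h1 : tile l k = (pe.toHomeomorph.trans (G l k).toHomeomorph) ⁻¹' T l := rfl
  rw [h1, ← Homeomorph.preimage_interior]
  rfl

lemma tile_interior_nonempty (k : Ind l) : (interior (tile l k)).Nonempty := by
  obtain ⟨z, hz⟩ := T_interior l
  refine ⟨pe.symm ((G l k).symm z), ?_⟩
  rw [mem_interior_tile, LinearIsometryEquiv.apply_symm_apply, IsometryEquiv.apply_symm_apply]
  exact hz

lemma tile_injective : Function.Injective (tile l) := by
  intro k k' h
  obtain ⟨x, hx⟩ := tile_interior_nonempty l k
  have hx' := hx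
  rw [h] at hx'
  rw [mem_interior_tile] at hx hx'
  exact disj hx hx'

lemma tiling : IsTiling (body l) (Set.range (tile l)) where
  congruent := by
    rintro _ ⟨k, rfl⟩
    refine ⟨(gp l k).symm, ?_⟩
    rw [tile_eq, IsometryEquiv.image_symm]
  cover := by
    rw [Set.eq_univ_iff_forall]
    intro x
    obtain ⟨k, hk⟩ := cover l (pe x)
    exact ⟨tile l k, ⟨k, rfl⟩, hk⟩
  disjoint := by
    rintro _ ⟨k, rfl⟩ _ ⟨k', rfl⟩ hne
    rw [Set.disjoint_left]
    intro x hx hx'
    rw [mem_interior_tile] at hx hx'
    exact hne (by rw [disj hx hx'])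

/-- index of the lower fan tiles -/
def low (i : Fin l) : Ind l := Sum.inl ⟨4 * (l + 2) + ((i : ℕ) + 2), by have := i.2; omega⟩

lemma low_injective : Function.Injective (low l) := by
  intro i j h
  have h1 := Sum.inl_injective h
  have h2 := congrArg Fin.val h1
  simp only at h2
  apply Fin.ext
  omega

lemma nbhd_low (i : Fin l) : neighbourhood (Set.range (tile l)) (tile l (low l i)) =
    ⋃₀ (tile l '' {k | (∃ j, k = Sum.inl j) ∨ k = Sum.inr (0, Sum.inl 0)}) := by
  rw [neighbourhood]
  congr 1
  ext s
  have key : ∀ k : Ind l, (tile l k ∩ tile l (low l i)).Nonempty ↔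
      ((∃ j, k = Sum.inl j) ∨ k = Sum.inr (0, Sum.inl 0)) := by
    intro k
    have hi := i.2
    rw [← nbr_iff (l := l) (i := (i : ℕ) + 2) (by omega) (by omega) k]
    constructor
    · rintro ⟨x, hx1, hx2⟩
      exact ⟨pe x, hx2, hx1⟩
    · rintro ⟨z, hz1, hz2⟩
      refine ⟨pe.symm z, ?_, ?_⟩
      · change G l k (pe (pe.symm z)) ∈ T l
        rw [LinearIsometryEquiv.apply_symm_apply]
        exact hz2
      · change G l (low l i) (pe (pe.symm z)) ∈ T l
        rw [LinearIsometryEquiv.apply_symm_apply]
        exact hz1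
  constructor
  · rintro ⟨⟨k, rfl⟩, hk⟩
    exact ⟨k, (key k).1 hk, rfl⟩
  · rintro ⟨k, hk, rfl⟩
    exact ⟨⟨k, rfl⟩, (key k).2 hk⟩

/-- for every `r` there is a monohedral tiling by topological disks with `r` different tiles that
have the same neighbourhood -/
theorem main (r : ℕ) : ∃ (C : Set Plane) (F : Set (Set Plane)) (f : Fin r → Set Plane),
    IsBody C ∧ IsTiling C F ∧ Function.Injective f ∧ (∀ i, f i ∈ F) ∧
      ∀ i j, neighbourhood F (f i) = neighbourhood F (f j) := by
  refine ⟨body r, Set.range (tile r), fun i => tile r (low r i), body_isBody r, tiling r, ?_, ?_, ?_⟩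
  · intro i j h
    exact low_injective r (tile_injective r h)
  · intro i
    exact ⟨_, rfl⟩
  · intro i j
    rw [nbhd_low, nbhd_low]

end Pool.Agent.H32Tile
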