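import Pool.Agent.H32Tile.Sector

set_option autoImplicit false

/-!
The tiling of the plane: the fan around the origin and six sectors around it; neighbourhoods of
the fan tiles.
-/

namespace Pool.Agent.H32Tile

open Finset

lemma u_add (a b : ℝ) : u (a + b) = u a * u b := by
  apply Complex.ext
  · simp only [u, Complex.mul_re, Real.cos_add]
  · simp only [u, Complex.mul_im, Real.sin_add]; ring

@[simp] lemma u_zero : u 0 = 1 := by
  apply Complex.ext <;> simp [u]

lemma u_add_two_pi (a : ℝ) : u (a + 2 * Real.pi) = u a := by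
  simp only [u, Real.cos_add_two_pi, Real.sin_add_two_pi]

lemma u_neg_mul (φ : ℝ) (z : ℂ) : u (-φ) * (u φ * z) = z := by
  rw [← mul_assoc, ← u_add, neg_add_cancel, u_zero, one_mul]

lemma u_mul_neg (φ : ℝ) (z : ℂ) : u φ * (u (-φ) * z) = z := by
  rw [← mul_assoc, ← u_add, add_neg_cancel, u_zero, one_mul]

lemma norm_u (φ : ℝ) : ‖u φ‖ = 1 := by
  have : u φ = Complex.exp (φ * Complex.I) := by
    rw [Complex.exp_mul_I]
    apply Complex.ext
    · simp [u, ← Complex.ofReal_cos, ← Complex.ofReal_sin]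
    · simp [u, ← Complex.ofReal_cos, ← Complex.ofReal_sin]
  rw [this, Complex.norm_exp_ofReal_mul_I]

/-- rotation about the origin -/
noncomputable def rotE (φ : ℝ) : ℂ ≃ᵢ ℂ where
  toFun z := u φ * z
  invFun z := u (-φ) * z
  left_inv z := u_neg_mul φ z
  right_inv z := u_mul_neg φ z
  isometry_toFun := Isometry.of_dist_eq (fun z w => by
    rw [dist_eq_norm, dist_eq_norm, ← mul_sub, norm_mul, norm_u, one_mul])

lemma rotE_apply (φ : ℝ) (z : ℂ) : rotE φ z = u φ * z := rfl

/-- the reflection `sg` -/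
noncomputable def sgE : ℂ ≃ᵢ ℂ where
  toFun := sg
  invFun := sg
  left_inv := sg_sg
  right_inv := sg_sg
  isometry_toFun := Isometry.of_dist_eq (fun z w => by
    rw [dist_eq_norm, dist_eq_norm, ← sg_sub, sg, norm_mul, norm_u, one_mul, Complex.norm_conj])

lemma sgE_apply (z : ℂ) : sgE z = sg z := rfl

/-- translation -/
noncomputable def trE (w : ℂ) : ℂ ≃ᵢ ℂ where
  toFun z := z - w
  invFun z := z + w
  left_inv z := by ring
  right_inv z := by ring
  isometry_toFun := Isometry.of_dist_eq (fun z w' => by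
    rw [dist_eq_norm, dist_eq_norm]; congr 1; ring)

lemma trE_apply (w z : ℂ) : trE w z = z - w := rfl

/-- half turn -/
noncomputable def htE (w : ℂ) : ℂ ≃ᵢ ℂ where
  toFun z := w - z
  invFun z := w - z
  left_inv z := by ring
  right_inv z := by ring
  isometry_toFun := Isometry.of_dist_eq (fun z w' => by
    rw [dist_eq_norm, dist_eq_norm, ← norm_neg]; congr 1; ring)

lemma htE_apply (w z : ℂ) : htE w z = w - z := rfl

variable (l : ℕ)

/-- iterates of `nu` -/
noncomputable def nuE : ℕ → (ℂ ≃ᵢ ℂ)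
  | 0 => IsometryEquiv.refl ℂ
  | m + 1 => ((trE (A l)).trans sgE).trans (nuE m)

lemma nuE_apply (m : ℕ) (z : ℂ) : nuE l m z = (nu l)^[m] z := by
  induction m generalizing z with
  | zero => rfl
  | succ m ih =>
    rw [Function.iterate_succ_apply, nuE, IsometryEquiv.trans_apply, ih]
    rfl

/-- `pc` as an isometry -/
noncomputable def pcE (b : Bool) (k : ℕ) : ℂ ≃ᵢ ℂ :=
  if b then sgE.trans (trE (k : ℂ)) else htE (A l + k)

lemma pcE_apply (b : Bool) (k : ℕ) (z : ℂ) : pcE l b k z = pc l b k z := by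
  rcases b with _ | _ <;> simp [pcE, pc, htE_apply, trE_apply, sgE_apply]

/-- `sm` as an isometry -/
noncomputable def smE : Idx → (ℂ ≃ᵢ ℂ)
  | Sum.inl k => trE (k : ℂ)
  | Sum.inr (m, b, k) => (trE (q l)).trans ((nuE l m).trans (pcE l b k))

lemma smE_apply (i : Idx) (z : ℂ) : smE l i z = sm l i z := by
  rcases i with k | ⟨m, b, k⟩
  · rfl
  · simp only [smE, sm, IsometryEquiv.trans_apply, pcE_apply, nuE_apply, trE_apply]

/-- apex of the sector number `0` -/
noncomputable def Q0 : ℂ := u (-(2 * Real.pi / 3)) * q l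

/-- the coordinate frame of the sector number `r` -/
noncomputable def fr (r : ℕ) (z : ℂ) : ℂ := u (-((r : ℝ) * (Real.pi / 3))) * z - Q0 l

/-- index type of all tiles -/
abbrev Ind (l : ℕ) := Fin (6 * (l + 2)) ⊕ (Fin 6 × Idx)

/-- the placing maps (inverse placements) of all tiles -/
noncomputable def G : Ind l → (ℂ ≃ᵢ ℂ)
  | Sum.inl j => rotE (-(((j : ℕ) : ℝ) * th l))
  | Sum.inr (r, i) => (((rotE (-(((r : ℕ) : ℝ) * (Real.pi / 3)))).trans (trE (Q0 l))).trans (smE l i))

lemma G_inl (j : Fin (6 * (l + 2))) (z : ℂ) : G l (Sum.inl j) z = u (-(((j : ℕ) : ℝ) * th l)) * z := rfl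

lemma G_inr (r : Fin 6) (i : Idx) (z : ℂ) : G l (Sum.inr (r, i)) z = sm l i (fr l r z) := by
  simp only [G, IsometryEquiv.trans_apply, smE_apply, trE_apply, rotE_apply, fr]

lemma c_fr (r t : ℕ) (z : ℂ) : c ((t : ℝ) * th l) (fr l r z) =
    be l (r * (l + 2) + t) z - be l (2 * (l + 2) + t) (q l) := by
  have hmul := mul_th l
  rw [fr, Q0, c_sub, c_mul_u, c_mul_u, be, be]
  have h1 : (t : ℝ) * th l - -((r : ℝ) * (Real.pi / 3)) = ((r * (l + 2) + t : ℕ) : ℝ) * th l := by
    rw [← hmul]; push_cast; ring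
  have h2 : (t : ℝ) * th l - -(2 * Real.pi / 3) = ((2 * (l + 2) + t : ℕ) : ℝ) * th l := by
    push_cast
    linear_combination (-2) * hmul
  rw [h1, h2]; ring

lemma im_fr (r : ℕ) (z : ℂ) : (fr l r z).im = be l (r * (l + 2)) z := by
  have h1 := c_fr l r 0 z
  rw [Nat.cast_zero, zero_mul, c_zero_left, add_zero, add_zero] at h1
  have h2 := q_be_eq' l (i := 0) (by omega)
  rw [Nat.sub_zero, S_zero] at h2
  rw [h1, h2, sub_zero]

lemma lam_fr (r t : ℕ) (z : ℂ) : c (((t : ℝ) + 1) * th l) (fr l r z) + S l t =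
    be l (r * (l + 2) + (t + 1)) z := by
  have h1 := c_fr l r (t + 1) z
  rw [q_be_eq] at h1
  push_cast at h1
  rw [h1]; ring

lemma mem_Sec_fr {r : ℕ} {z : ℂ} : fr l r z ∈ Sec l ↔
    0 ≤ be l (r * (l + 2)) z ∧ ∃ t : ℕ, t ≤ l + 1 ∧ be l (r * (l + 2) + (t + 1)) z ≤ 0 := by
  constructor
  · rintro ⟨h1, t, ht, h2⟩
    rw [im_fr] at h1
    rw [lam_fr] at h2
    exact ⟨h1, t, ht, h2⟩
  · rintro ⟨h1, t, ht, h2⟩
    refine ⟨by rw [im_fr]; exact h1, t, ht, ?_⟩
    rw [lam_fr]; exact h2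

lemma be_add_mul (m n : ℕ) (z : ℂ) : be l (m + 6 * (l + 2) * n) z = be l m z := by
  rw [← be_mod, Nat.add_mul_mod_self_left, be_mod]

lemma u_period (j n : ℕ) : u (-(((j + 6 * (l + 2) * n : ℕ) : ℝ) * th l)) = u (-((j : ℝ) * th l)) := by
  induction n with
  | zero => rw [Nat.mul_zero, Nat.add_zero]
  | succ n ih =>
    rw [← ih, ← u_add_two_pi, ← three_L_th l]
    congr 1
    push_cast; ring

/-- the tiles cover the plane -/
lemma cover (z : ℂ) : ∃ i, G l i z ∈ T l := by
  by_cases hM : ∀ m : ℕ, 0 ≤ be l m z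
  · obtain ⟨j, hj⟩ := fan_cover hM
    refine ⟨Sum.inl ⟨j % (6 * (l + 2)), Nat.mod_lt _ (by omega)⟩, ?_⟩
    rw [G_inl]
    rw [← Nat.mod_add_div j (6 * (l + 2)), u_period] at hj
    exact hj
  · push Not at hM
    obtain ⟨m, hm⟩ := hM
    have hsec : ∃ r : ℕ, 0 ≤ be l (r * (l + 2)) z ∧
        ∃ t : ℕ, t ≤ l + 1 ∧ be l (r * (l + 2) + (t + 1)) z ≤ 0 := by
      by_contra hcon
      push Not at hcon
      have hrho := rho_pos l
      obtain ⟨r, hr3, hr⟩ : ∃ r : ℕ, r ≤ 3 ∧ 0 ≤ be l (r * (l + 2)) z := by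
        have h1 := be_half l 0 z
        rcases le_or_gt 0 (be l 0 z) with h2 | h2
        · exact ⟨0, by omega, by simpa using h2⟩
        · refine ⟨3, le_rfl, ?_⟩
          rw [zero_add] at h1
          linarith
      have h1 : ∀ n : ℕ, 0 ≤ be l ((r + n) * (l + 2)) z := by
        intro n
        induction n with
        | zero => simpa using hr
        | succ n ih =>
          have h2 := hcon (r + n) ih (l + 1) le_rfl
          rw [show (r + (n + 1)) * (l + 2) = (r + n) * (l + 2) + (l + 1 + 1) by ring]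
          exact h2.le
      have h2 : ∀ n : ℕ, 0 ≤ be l (r * (l + 2) + n) z := by
        intro n
        have h3 := Nat.mod_add_div n (l + 2)
        have h4 := Nat.mod_lt n (show 0 < l + 2 by omega)
        rcases Nat.eq_zero_or_pos (n % (l + 2)) with h5 | h5
        · have := h1 (n / (l + 2))
          rw [← h3, h5]
          rw [show r * (l + 2) + (0 + (l + 2) * (n / (l + 2))) = (r + n / (l + 2)) * (l + 2) by ring]
          exact this
        · obtain ⟨s, hs⟩ : ∃ s, n % (l + 2) = s + 1 := ⟨n % (l + 2) - 1, by omega⟩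
          have := hcon (r + n / (l + 2)) (h1 _) s (by omega)
          rw [← h3, hs]
          rw [show r * (l + 2) + (s + 1 + (l + 2) * (n / (l + 2))) =
            (r + n / (l + 2)) * (l + 2) + (s + 1) by ring]
          exact this.le
      have h3 : r * (l + 2) ≤ m + 6 * (l + 2) := by nlinarith
      obtain ⟨n, hn⟩ := Nat.exists_eq_add_of_le h3
      have h4 := h2 n
      rw [← hn, be_period] at h4
      linarith
    obtain ⟨r, h1, t, ht, h2⟩ := hsec
    have hmod : ∀ s : ℕ, be l (r * (l + 2) + s) z = be l ((r % 6) * (l + 2) + s) z := by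
      intro s
      conv_lhs => rw [← Nat.mod_add_div r 6]
      rw [show (r % 6 + 6 * (r / 6)) * (l + 2) + s = ((r % 6) * (l + 2) + s) + 6 * (l + 2) * (r / 6)
        by ring, be_add_mul]
    have h3 : fr l (r % 6) z ∈ Sec l := by
      rw [mem_Sec_fr]
      refine ⟨?_, t, ht, ?_⟩
      · have := hmod 0
        rw [add_zero, add_zero] at this
        rw [← this]; exact h1
      · rw [← hmod]; exact h2
    obtain ⟨i, hi⟩ := sec_cover h3
    exact ⟨Sum.inr (⟨r % 6, Nat.mod_lt _ (by omega)⟩, i), by rw [G_inr]; exact hi⟩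

lemma sin_add_lt {x y : ℝ} (hx : 0 < x) (hy : 0 < y) (hxy : x + y < Real.pi) :
    Real.sin (x + y) < Real.sin x + Real.sin y := by
  rw [Real.sin_add]
  have h1 : 0 < Real.sin x := Real.sin_pos_of_pos_of_lt_pi hx (by linarith)
  have h2 : 0 < Real.sin y := Real.sin_pos_of_pos_of_lt_pi hy (by linarith)
  have h3 : Real.cos x < 1 := by
    rw [← Real.cos_zero]
    exact Real.cos_lt_cos_of_nonneg_of_le_pi le_rfl (by linarith) hx
  have h4 : Real.cos y < 1 := by
    rw [← Real.cos_zero]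
    exact Real.cos_lt_cos_of_nonneg_of_le_pi le_rfl (by linarith) hy
  nlinarith [mul_pos h1 (sub_pos.2 h4), mul_pos h2 (sub_pos.2 h3)]

/-- two sides of the central polygon and one between them -/
lemma pin {z : ℂ} {a m b : ℕ} (h1 : a < m) (h2 : m < b) (h3 : b < a + 3 * (l + 2))
    (ha : be l a z ≤ 0) (hb : be l b z ≤ 0) : be l m z < 0 := by
  have hth := th_pos l
  have hrho := rho_pos l
  have h1' : (a : ℝ) < m := by exact_mod_cast h1
  have h2' : (m : ℝ) < b := by exact_mod_cast h2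
  have h3' : (b : ℝ) < a + 3 * ((l : ℝ) + 2) := by exact_mod_cast h3
  have h4 := three ((a : ℝ) * th l) ((m : ℝ) * th l) ((b : ℝ) * th l) z
  have h5 : 0 < Real.sin ((b : ℝ) * th l - (m : ℝ) * th l) := by
    rw [← sub_mul]; exact sin_pos_mul l (by linarith) (by linarith)
  have h6 : 0 < Real.sin ((m : ℝ) * th l - (a : ℝ) * th l) := by
    rw [← sub_mul]; exact sin_pos_mul l (by linarith) (by linarith)
  have h7 : 0 < Real.sin ((b : ℝ) * th l - (a : ℝ) * th l) := by
    rw [← sub_mul]; exact sin_pos_mul l (by linarith) (by linarith)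
  have h8 : Real.sin ((b : ℝ) * th l - (a : ℝ) * th l) <
      Real.sin ((b : ℝ) * th l - (m : ℝ) * th l) + Real.sin ((m : ℝ) * th l - (a : ℝ) * th l) := by
    have := sin_add_lt (x := (b : ℝ) * th l - (m : ℝ) * th l) (y := (m : ℝ) * th l - (a : ℝ) * th l)
      (by rw [← sub_mul]; exact mul_pos (by linarith) hth)
      (by rw [← sub_mul]; exact mul_pos (by linarith) hth)
      (by
        rw [← three_L_th l]
        have : ((b : ℝ) - a) * th l < 3 * ((l : ℝ) + 2) * th l :=
          mul_lt_mul_of_pos_right (by linarith) hth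
        linarith)
    rwa [show (b : ℝ) * th l - (m : ℝ) * th l + ((m : ℝ) * th l - (a : ℝ) * th l) =
      (b : ℝ) * th l - (a : ℝ) * th l by ring] at this
  rw [be] at ha hb ⊢
  by_contra hneg
  push Not at hneg
  nlinarith [mul_nonneg h5.le (neg_nonneg.2 ha), mul_nonneg h6.le (neg_nonneg.2 hb),
    mul_nonneg h7.le hneg, mul_pos hrho (sub_pos.2 h8)]

lemma sector_aux {z : ℂ} {r r' t t' : ℕ} (hr : r < r') (ht : t ≤ l + 1)
    (hab : r' * (l + 2) + (t' + 1) < r * (l + 2) + (t + 1) + 3 * (l + 2))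
    (h1 : be l (r * (l + 2) + (t + 1)) z ≤ 0) (h2 : 0 < be l (r' * (l + 2)) z)
    (h3 : be l (r' * (l + 2) + (t' + 1)) z ≤ 0) : False := by
  have h4 : (r + 1) * (l + 2) ≤ r' * (l + 2) := Nat.mul_le_mul_right _ hr
  rw [add_mul, one_mul] at h4
  rcases eq_or_lt_of_le (show r * (l + 2) + (t + 1) ≤ r' * (l + 2) by omega) with h5 | h5
  · rw [h5] at h1; linarith
  · have := pin l h5 (show r' * (l + 2) < r' * (l + 2) + (t' + 1) by omega) hab h1 h3
    linarith

lemma sector_disj {z : ℂ} {r r' t t' : ℕ} (hr : r < r') (hr' : r' ≤ 5) (ht : t ≤ l + 1)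
    (ht' : t' ≤ l + 1)
    (h0 : 0 < be l (r * (l + 2)) z) (h1 : be l (r * (l + 2) + (t + 1)) z ≤ 0)
    (h2 : 0 < be l (r' * (l + 2)) z) (h3 : be l (r' * (l + 2) + (t' + 1)) z ≤ 0) : False := by
  rcases lt_trichotomy (r' * (l + 2) + (t' + 1)) (r * (l + 2) + (t + 1) + 3 * (l + 2)) with h | h | h
  · exact sector_aux l hr ht h h1 h2 h3
  · have h4 := be_half l (r * (l + 2) + (t + 1)) z
    rw [← h] at h4
    have := rho_pos l
    linarith
  · refine sector_aux l (z := z) (r := r') (r' := r + 6) (t := t') (t' := t) (by omega) ht' ?_ h3 ?_ ?_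
    · rw [add_mul]; omega
    · rw [add_mul, be_period]; exact h0
    · rw [show (r + 6) * (l + 2) + (t + 1) = r * (l + 2) + (t + 1) + 6 * (l + 2) by ring, be_period]
      exact h1

/-- side functionals in the frame of a fan tile -/
lemma fan_be {j : ℕ} (hj : j ≤ 6 * (l + 2)) (m : ℕ) (z : ℂ) :
    be l (m + (6 * (l + 2) - j)) (u (-((j : ℝ) * th l)) * z) = be l m z := by
  rw [be, c_mul_u, ← be_period, be]
  congr 2
  rw [Nat.cast_add, Nat.cast_sub hj]
  push_cast; ring

variable {l}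

/-- the tiles do not overlap -/
lemma disj {i j : Ind l} {z : ℂ} (h1 : G l i z ∈ interior (T l)) (h2 : G l j z ∈ interior (T l)) :
    i = j := by
  have fan_sec : ∀ (j : Fin (6 * (l + 2))) (r : Fin 6) (i : Idx),
      G l (Sum.inl j) z ∈ interior (T l) → G l (Sum.inr (r, i)) z ∈ T l → False := by
    intro j r i h1 h2
    rw [G_inl] at h1
    rw [G_inr] at h2
    obtain ⟨_, t, ht, h3⟩ := (mem_Sec_fr l).1 (sm_mem_Sec h2)
    have h4 := int_pos h1 (((((r : ℕ) * (l + 2) + (t + 1)) + (6 * (l + 2) - (j : ℕ)) : ℕ) : ℝ) * th l)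
      (rho l) (fun p hp => T_be_all hp _)
    have h5 := fan_be l j.2.le ((r : ℕ) * (l + 2) + (t + 1)) z
    rw [be] at h5
    rw [h5] at h4
    linarith
  have sec_pos : ∀ (r : Fin 6) (i : Idx), G l (Sum.inr (r, i)) z ∈ interior (T l) →
      0 < be l ((r : ℕ) * (l + 2)) z := by
    intro r i h1
    rw [G_inr, ← smE_apply] at h1
    have h2 : fr l r z ∈ (smE l i).toHomeomorph ⁻¹' interior (T l) := h1
    rw [Homeomorph.preimage_interior] at h2
    have h3 := int_pos h2 0 0 (fun y hy => by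
      have hy' : sm l i y ∈ T l := by
        rw [← smE_apply]; exact hy
      rw [c_zero_left, add_zero]
      exact (sm_mem_Sec hy').1)
    rw [c_zero_left, add_zero, im_fr] at h3
    exact h3
  rcases i with j1 | ⟨r, i⟩ <;> rcases j with j2 | ⟨r', i'⟩
  · rw [G_inl] at h1 h2
    have hj1 := j1.2
    have hj2 := j2.2
    have key : ∀ a b : ℕ, a < b → b < 6 * (l + 2) → u (-((a : ℝ) * th l)) * z ∈ interior (T l) →
        u (-((b : ℝ) * th l)) * z ∈ interior (T l) → False := by
      intro a b hab hb ha1 hb1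
      rcases le_or_gt (b - a) (3 * (l + 2)) with h3 | h3
      · refine fan_disj ha1 (s := b - a) (by omega) h3 ?_
        rw [← mul_assoc, ← u_add]
        have : -(((b - a : ℕ) : ℝ) * th l) + -((a : ℝ) * th l) = -((b : ℝ) * th l) := by
          rw [Nat.cast_sub hab.le]; ring
        rw [this]
        exact interior_subset hb1
      · refine fan_disj hb1 (s := a + 6 * (l + 2) - b) (by omega) (by omega) ?_
        rw [← mul_assoc, ← u_add]
        have h4 := u_period l a 1
        have : -(((a + 6 * (l + 2) - b : ℕ) : ℝ) * th l) + -((b : ℝ) * th l) =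
            -(((a + 6 * (l + 2) * 1 : ℕ) : ℝ) * th l) := by
          rw [Nat.cast_sub (by omega)]; push_cast; ring
        rw [this, h4]
        exact interior_subset ha1
    rcases lt_trichotomy (j1 : ℕ) (j2 : ℕ) with h3 | h3 | h3
    · exact (key _ _ h3 hj2 h1 h2).elim
    · rw [Fin.ext h3]
    · exact (key _ _ h3 hj1 h2 h1).elim
  · exact (fan_sec j1 r' i' h1 (interior_subset h2)).elim
  · exact (fan_sec j2 r i h2 (interior_subset h1)).elim
  · have hp1 := sec_pos r i h1
    have hp2 := sec_pos r' i' h2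
    rw [G_inr] at h1 h2
    obtain ⟨_, t, ht, h3⟩ := (mem_Sec_fr l).1 (sm_mem_Sec (interior_subset h1))
    obtain ⟨_, t', ht', h4⟩ := (mem_Sec_fr l).1 (sm_mem_Sec (interior_subset h2))
    have hr := r.2
    have hr' := r'.2
    rcases lt_trichotomy (r : ℕ) (r' : ℕ) with h5 | h5 | h5
    · exact (sector_disj l h5 (by omega) ht ht' hp1 h3 hp2 h4).elim
    · have h6 : r = r' := Fin.ext h5
      subst h6
      rw [sec_disj h1 h2]
    · exact (sector_disj l h5 (by omega) ht' ht hp2 h4 hp1 h3).elim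

variable (l)

lemma q_mem_T : q l ∈ T l := by
  refine ⟨fun t ht => ?_, ⟨l + 1, le_rfl, ?_⟩, (base_q l).ge⟩
  · rcases t with _ | t
    · rw [Nat.cast_zero, zero_mul, c_zero_left, im_q, S_zero, add_zero]
      exact S_nonneg l le_rfl
    · have h1 := lam_q l (t := t) (by omega)
      have h2 := S_nonneg l (n := l + 1 - t) (by omega)
      have h3 := S_mono l (m := t) (n := t + 1) (by omega) (by omega)
      push_cast
      linarith
  · rw [L_th, c_pi_div_three, h_q]
    linarith

variable {l}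

/-- a lower side of the central polygon: every tile outside that touches it is the base tile -/
lemma nbr_sec {i : ℕ} (hi : 2 ≤ i) (hi' : i ≤ l + 1) {z : ℂ}
    (hz : u (-(((4 * (l + 2) + i : ℕ) : ℝ) * th l)) * z ∈ T l) {r : Fin 6} {k : Idx}
    (hk : sm l k (fr l r z) ∈ T l) : r = 0 ∧ k = Sum.inl 0 := by
  set p := u (-(((4 * (l + 2) + i : ℕ) : ℝ) * th l)) * z with hp
  have hr := r.2
  obtain ⟨_, t, ht, h3⟩ := (mem_Sec_fr l).1 (sm_mem_Sec hk)
  have hbe : ∀ m : ℕ, be l (m + (6 * (l + 2) - (4 * (l + 2) + i))) p = be l m z :=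
    fun m => fan_be l (by omega) m z
  have hsub : 6 * (l + 2) - (4 * (l + 2) + i) = 2 * (l + 2) - i := by omega
  rw [hsub] at hbe
  have h4 := hbe ((r : ℕ) * (l + 2) + (t + 1))
  have hr5 : (r : ℕ) * (l + 2) ≤ 5 * (l + 2) := Nat.mul_le_mul_right _ (by omega)
  have h5 : ∃ n : ℕ, n < 6 * (l + 2) ∧ be l n p ≤ 0 ∧
      ((r : ℕ) * (l + 2) + (t + 1) + (2 * (l + 2) - i) = n ∨
        (r : ℕ) * (l + 2) + (t + 1) + (2 * (l + 2) - i) = n + 6 * (l + 2)) := by
    rcases lt_or_ge ((r : ℕ) * (l + 2) + (t + 1) + (2 * (l + 2) - i)) (6 * (l + 2)) with h6 | h6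
    · exact ⟨_, h6, by rw [h4]; exact h3, Or.inl rfl⟩
    · obtain ⟨n, hn⟩ := Nat.exists_eq_add_of_le' h6
      refine ⟨n, by omega, ?_, Or.inr hn⟩
      rw [hn, be_period] at h4
      rw [h4]; exact h3
  obtain ⟨n, hn, h6, h7⟩ := h5
  have h8 := (T_be hz hn.le).2
  have h9 : n + 1 = 2 * (l + 2) ∨ n = 2 * (l + 2) ∨ n = 2 * (l + 2) + 1 := by
    by_contra hcon
    push Not at hcon
    have := h8 (Or.inr hcon)
    linarith
  have h10 : h p - p.im + rho l = 0 := by
    apply le_antisymm _ (T_base hz)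
    by_contra hcon
    push Not at hcon
    have := h8 (Or.inl hcon)
    linarith
  have hr0 : (r : ℕ) = 0 := by
    by_contra hcon
    have : 1 * (l + 2) ≤ (r : ℕ) * (l + 2) := Nat.mul_le_mul_right _ (by omega)
    omega
  have hr0' : r = 0 := Fin.ext hr0
  refine ⟨hr0', ?_⟩
  rw [hr0] at hk
  refine sec_unique (z := fr l 0 z) ?_ ?_ hk
  · intro t _
    rw [lam_fr, ← hbe]
    exact T_be_all hz _
  · rw [im_fr, zero_mul, ← hbe, zero_add]
    have hl0 : (0 : ℝ) ≤ l := Nat.cast_nonneg l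
    have hi0 : (i : ℝ) ≤ l + 1 := by exact_mod_cast hi'
    have hi1 : (2 : ℝ) ≤ i := by exact_mod_cast hi
    have h11 := three 0 (((2 * (l + 2) - i : ℕ) : ℝ) * th l) (2 * Real.pi / 3) (p - q l)
    have hmul := mul_th l
    rw [sub_zero, sub_zero, c_zero_left, c_two_pi_div_three, h_sub, Complex.sub_im, im_q] at h11
    have h12 : h p - h (q l) - (p.im - S l (l + 2)) = 0 := by
      have := base_q l
      rw [im_q] at this
      linarith
    rw [h12, mul_zero, add_zero, c_sub] at h11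
    have h13 : 0 < Real.sin (2 * Real.pi / 3) := by
      rw [show 2 * Real.pi / 3 = (2 * ((l : ℝ) + 2)) * th l by linear_combination (-2) * hmul]
      exact sin_pos_mul l (by positivity) (by linarith)
    have h14 : 0 ≤ Real.sin (2 * Real.pi / 3 - ((2 * (l + 2) - i : ℕ) : ℝ) * th l) := by
      rw [show 2 * Real.pi / 3 - ((2 * (l + 2) - i : ℕ) : ℝ) * th l = (i : ℝ) * th l by
        rw [Nat.cast_sub (by omega)]
        push_cast
        linear_combination (-2) * hmul]
      exact sin_nonneg_mul l (by linarith) (by linarith)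
    have h15 := T_im_le hz
    have h16 := q_be_eq' l (i := i) (by omega)
    have h17 : c (((2 * (l + 2) - i : ℕ) : ℝ) * th l) p -
        c (((2 * (l + 2) - i : ℕ) : ℝ) * th l) (q l) ≤ 0 := by
      by_contra hneg
      push Not at hneg
      nlinarith [mul_pos h13 hneg, mul_nonneg h14 (sub_nonneg.2 h15)]
    have h18 := S_mono l (m := i) (n := l + 1) hi' (by omega)
    have h19 : S l (l + 1) < S l (l + 2) := by
      rw [S_top]
      have : (0 : ℝ) < √3 / 2 := by positivity
      linarith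
    rw [be] at h16 ⊢
    linarith

/-- the tiles meeting a lower fan tile -/
lemma nbr_iff {i : ℕ} (hi : 2 ≤ i) (hi' : i ≤ l + 1) (k : Ind l) :
    (∃ z, u (-(((4 * (l + 2) + i : ℕ) : ℝ) * th l)) * z ∈ T l ∧ G l k z ∈ T l) ↔
      ((∃ j, k = Sum.inl j) ∨ k = Sum.inr (0, Sum.inl 0)) := by
  constructor
  · rintro ⟨z, h1, h2⟩
    rcases k with j | ⟨r, k⟩
    · exact Or.inl ⟨j, rfl⟩
    · right
      rw [G_inr] at h2
      obtain ⟨h3, h4⟩ := nbr_sec hi hi' h1 h2
      rw [h3, h4]
  · rintro (⟨j, rfl⟩ | rfl)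
    · refine ⟨0, ?_, ?_⟩
      · rw [mul_zero]; exact zero_mem_T l
      · rw [G_inl, mul_zero]; exact zero_mem_T l
    · refine ⟨u (((4 * (l + 2) + i : ℕ) : ℝ) * th l) * q l, ?_, ?_⟩
      · rw [u_neg_mul]; exact q_mem_T l
      · set z := u (((4 * (l + 2) + i : ℕ) : ℝ) * th l) * q l with hz
        have hq : u (-(((4 * (l + 2) + i : ℕ) : ℝ) * th l)) * z = q l := by rw [hz, u_neg_mul]
        have hqT : u (-(((4 * (l + 2) + i : ℕ) : ℝ) * th l)) * z ∈ T l := by
          rw [hq]; exact q_mem_T l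
        have hbe : ∀ m : ℕ, be l (m + (6 * (l + 2) - (4 * (l + 2) + i))) (q l) = be l m z := by
          intro m
          rw [← hq]
          exact fan_be l (by omega) m z
        have h1 : fr l 0 z ∈ Sec l := by
          rw [mem_Sec_fr]
          refine ⟨?_, i - 1, by omega, ?_⟩
          · rw [← hbe]; exact T_be_all (q_mem_T l) _
          · rw [← hbe]
            have h2 : 0 * (l + 2) + (i - 1 + 1) + (6 * (l + 2) - (4 * (l + 2) + i)) =
              2 * (l + 2) - 0 := by omega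
            rw [h2, q_be_eq' l (by omega), S_zero]
        obtain ⟨k, hk⟩ := sec_cover h1
        have h2 : sm l k (fr l (0 : Fin 6) z) ∈ T l := hk
        obtain ⟨_, h4⟩ := nbr_sec hi hi' hqT h2
        rw [G_inr, ← h4]
        exact h2

end Pool.Agent.H32Tile
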