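import Pool.Agent.H32Tile.Fan

set_option autoImplicit false

/-!
The tiling of the region `Sec` to the right of the left side of the tile.
-/

namespace Pool.Agent.H32Tile

open Finset

lemma eq_of_im_h {z w : ℂ} (h1 : z.im = w.im) (h2 : h z = h w) : z = w := by
  apply Complex.ext _ h1
  have h3 : (0 : ℝ) < √3 / 2 := by positivity
  simp only [h, h1] at h2
  have : √3 / 2 * z.re = √3 / 2 * w.re := by linarith
  exact mul_left_cancel₀ h3.ne' this

/-- reflection exchanging the directions `0` and `π / 3` -/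
noncomputable def sg (z : ℂ) : ℂ := u (Real.pi / 3) * (starRingEnd ℂ) z

lemma c_sg (φ : ℝ) (z : ℂ) : c φ (sg z) = - c (Real.pi / 3 - φ) z := by
  rw [sg, c_mul_u, c_conj]
  congr 2
  ring

lemma im_sg (z : ℂ) : (sg z).im = - h z := by
  rw [← c_zero_left, c_sg, sub_zero, c_pi_div_three]

lemma h_sg (z : ℂ) : h (sg z) = - z.im := by
  rw [← c_pi_div_three, c_sg, sub_self, c_zero_left]

lemma sg_sg (z : ℂ) : sg (sg z) = z :=
  eq_of_im_h (by rw [im_sg, h_sg, neg_neg]) (by rw [h_sg, im_sg, neg_neg])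

lemma sg_sub (z w : ℂ) : sg (z - w) = sg z - sg w := by
  simp only [sg, map_sub]; ring

lemma h_neg (z : ℂ) : h (-z) = - h z := by
  simp only [h, Complex.neg_re, Complex.neg_im]; ring

variable (l : ℕ)

lemma sg_A : sg (A l) = q l :=
  eq_of_im_h (by rw [im_sg, h_A, im_q, neg_neg]) (by rw [h_sg, im_A, h_q])

lemma sg_q : sg (q l) = A l := by rw [← sg_A, sg_sg]

/-- inverse of the glide reflection `y ↦ A + sg y` -/
noncomputable def nu (z : ℂ) : ℂ := sg (z - A l)

lemma nu_eq (z : ℂ) : nu l z = sg z - q l := by rw [nu, sg_sub, sg_A]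

lemma im_nu (z : ℂ) : (nu l z).im = - h z - S l (l + 2) := by
  rw [nu_eq, Complex.sub_im, im_sg, im_q]

lemma h_nu (z : ℂ) : h (nu l z) = - z.im + S l (l + 1) := by
  rw [nu_eq, h_sub, h_sg, h_q]; ring

lemma im_nu_nu (z : ℂ) : (nu l (nu l z)).im = z.im - rho l := by
  rw [im_nu, h_nu, rho]; ring

/-- the region to the right of the left side of the tile -/
def Sec : Set ℂ := {z | 0 ≤ z.im ∧ ∃ t : ℕ, t ≤ l + 1 ∧ c (((t : ℝ) + 1) * th l) z + S l t ≤ 0}

/-- the cone with notches -/
def R1 : Set ℂ := {z | (0 ≤ z.im ∧ h z ≤ 0) ∨ ∃ k : ℕ, z.im ≤ 0 ∧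
  0 ≤ h z + √3 / 2 * (k + 1) ∧ h z - z.im + √3 / 2 * k ≤ 0}

/-- the placing maps of the two basic families in the notched cone -/
noncomputable def pc (b : Bool) (k : ℕ) (z : ℂ) : ℂ :=
  if b then sg z - k else A l + k - z

variable {l}

lemma R1_h {z : ℂ} (hz : z ∈ R1) : h z ≤ 0 := by
  rcases hz with hz | ⟨k, h1, h2, h3⟩
  · exact hz.2
  · have : 0 ≤ √3 / 2 * (k : ℝ) := by positivity
    linarith

lemma R1_im {z : ℂ} (hz : z ∈ R1) : -(√3 / 2) ≤ z.im := by
  rcases hz with hz | ⟨k, h1, h2, h3⟩
  · have : 0 ≤ √3 / 2 := by positivity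
    linarith [hz.1]
  · linarith

lemma S_top' : S l (l + 2) = S l (l + 1) + √3 / 2 := S_top l

lemma L_th : (((l + 1 : ℕ) : ℝ) + 1) * th l = Real.pi / 3 := by
  rw [← mul_th l]; push_cast; ring

lemma im_sub_nat (z : ℂ) (k : ℕ) : (z - (k : ℂ)).im = z.im := by simp

lemma h_sub_nat (z : ℂ) (k : ℕ) : h (z - (k : ℂ)) = h z + √3 / 2 * k := by
  rw [h_sub, h_natCast]; ring

/-- step one of the covering -/
lemma sec_step {z : ℂ} (hz : z ∈ Sec l) : (∃ k : ℕ, z - k ∈ T l) ∨ z - q l ∈ R1 := by
  obtain ⟨him, hleft⟩ := hz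
  have h3pos : (0 : ℝ) < √3 / 2 := by positivity
  set P : ℕ → Prop := fun k => ∃ t : ℕ, t ≤ l + 1 ∧
    c (((t : ℝ) + 1) * th l) (z - k) + S l t ≤ 0 with hP
  have hP0 : P 0 := by
    obtain ⟨t, ht, h1⟩ := hleft
    exact ⟨t, ht, by simpa using h1⟩
  obtain ⟨N, hN⟩ := exists_nat_gt (- h z / (√3 / 2))
  have hPN : ¬ P N := by
    rintro ⟨t, ht, h1⟩
    have h2 : h (z - N) ≤ 0 := by
      refine h_nonpos_of (l := l) (by rw [im_sub_nat]; exact him) ht ?_
      have := S_nonneg l (n := t) (by omega)
      linarith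
    rw [h_sub_nat] at h2
    rw [div_lt_iff₀ h3pos] at hN
    linarith
  obtain ⟨k, hk1, hk2⟩ := exists_switch P (Nat.zero_le N) hP0 hPN
  have hk3 : ∀ t : ℕ, t ≤ l + 1 → 0 < c (((t : ℝ) + 1) * th l) (z - k) + S l (t + 1) := by
    intro t ht
    by_contra hcon
    push Not at hcon
    apply hk2
    refine ⟨t, ht, ?_⟩
    rw [S_succ] at hcon
    rw [show z - ((k + 1 : ℕ) : ℂ) = (z - k) - 1 by push_cast; ring, c_sub, c_one]
    linarith
  have hk4 := hk3 (l + 1) le_rfl
  rw [L_th, c_pi_div_three, h_sub_nat] at hk4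
  rcases le_or_gt 0 (h (z - k) - (z - k).im + rho l) with hb | hb
  · left
    refine ⟨k, fun t ht => ?_, hk1, hb⟩
    rcases t with _ | t
    · simpa [c_zero_left] using him
    · have := hk3 t (by omega)
      push_cast
      exact this.le
  · right
    rw [h_sub_nat, im_sub_nat] at hb
    have h1 : S l (l + 1) ≤ (z - k).im := by
      rw [im_sub_nat]; rw [rho] at hb; linarith
    have h2 := line_order h1 hk1
    rw [h_sub_nat] at h2
    have h4 : h (z - q l) = h z + S l (l + 1) := by rw [h_sub, h_q]; ring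
    have h5 : (z - q l).im = z.im - S l (l + 2) := by rw [Complex.sub_im, im_q]
    have h6 : 0 ≤ √3 / 2 * (k : ℝ) := by positivity
    rcases le_or_gt 0 (z - q l).im with h7 | h7
    · left
      exact ⟨h7, by rw [h4]; linarith⟩
    · right
      refine ⟨k, h7.le, ?_, ?_⟩
      · rw [h4]
        have := S_top' (l := l)
        linarith
      · rw [h4, h5]
        rw [rho] at hb
        linarith

/-- step two of the covering -/
lemma R1_step {z : ℂ} (hz : z ∈ R1) :
    (∃ k : ℕ, A l + k - z ∈ T l) ∨ (∃ k : ℕ, sg z - k ∈ T l) ∨ nu l z ∈ R1 := by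
  have hl0 : (0 : ℝ) ≤ l := Nat.cast_nonneg l
  have hmul := mul_th l
  have hAk : ∀ (φ : ℝ) (k : ℕ), c φ (A l + k - z) = c φ (A l) - Real.sin φ * k - c φ z := by
    intro φ k
    rw [c_sub, c_add, c_natCast]; ring
  have hAh : ∀ (k : ℕ), h (A l + k - z) = - S l (l + 2) - √3 / 2 * k - h z := by
    intro k
    rw [h_sub, h_add, h_natCast, h_A]; ring
  have hAi : ∀ (k : ℕ), (A l + k - z).im = S l (l + 1) - z.im := by
    intro k
    rw [Complex.sub_im, Complex.add_im, im_A, Complex.natCast_im, add_zero]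
  rcases hz with ⟨him, hh⟩ | ⟨k, h1, h2, h3⟩
  · by_cases hK : ∀ t : ℕ, t ≤ l + 1 → 0 ≤ c ((t : ℝ) * th l) (A l - z) + S l t
    · left
      set P : ℕ → Prop := fun k => ∀ t : ℕ, t ≤ l + 1 →
        0 ≤ c ((t : ℝ) * th l) (A l + k - z) + S l t with hP
      have hP0 : P 0 := by
        intro t ht
        have := hK t ht
        simpa using this
      have hs1 : 0 < Real.sin (((1 : ℕ) : ℝ) * th l) := by
        apply sin_pos_mul
        · norm_num
        · push_cast; linarith
      obtain ⟨N, hN⟩ := exists_nat_gt ((c (((1 : ℕ) : ℝ) * th l) (A l) -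
        c (((1 : ℕ) : ℝ) * th l) z + S l 1) / Real.sin (((1 : ℕ) : ℝ) * th l))
      have hPN : ¬ P N := by
        intro hcon
        have h1 := hcon 1 (by omega)
        rw [hAk] at h1
        rw [div_lt_iff₀ hs1] at hN
        linarith
      obtain ⟨k, hk1, hk2⟩ := exists_switch P (Nat.zero_le N) hP0 hPN
      refine ⟨k, hk1, ?_, ?_⟩
      · rw [hP] at hk2
        push Not at hk2
        obtain ⟨t, ht, h1⟩ := hk2
        rcases t with _ | t
        · exfalso
          have h2 := hk1 0 (by omega)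
          rw [hAk] at h1 h2
          simp only [Nat.cast_zero, zero_mul, Real.sin_zero] at h1 h2
          linarith
        · refine ⟨t, by omega, ?_⟩
          rw [hAk] at h1 ⊢
          rw [S_succ] at h1
          push_cast at h1
          linarith
      · have h1 := three 0 (((l : ℝ) + 1) * th l) (2 * Real.pi / 3) ((A l + k - z) - A l)
        rw [sub_zero, sub_zero, c_zero_left, c_two_pi_div_three] at h1
        have h2 : c (((l : ℝ) + 1) * th l) ((A l + k - z) - A l) =
            c (((l : ℝ) + 1) * th l) (A l + k - z) + S l (l + 1) := by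
          have := c_A l (t := l + 1) le_rfl
          rw [Nat.sub_self, S_zero, zero_sub] at this
          push_cast at this
          rw [c_sub, this]; ring
        have h3 := hk1 (l + 1) le_rfl
        push_cast at h3
        rw [← h2] at h3
        have h4 : h ((A l + k - z) - A l) - ((A l + k - z) - A l).im =
            h (A l + k - z) - (A l + k - z).im + rho l := by
          rw [h_sub _ (A l), Complex.sub_im _ (A l)]
          linarith [base_A l]
        rw [h4] at h1
        have h5 : ((A l + k - z) - A l).im = - z.im := by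
          rw [Complex.sub_im, hAi, im_A]; ring
        rw [h5] at h1
        have h6 : 0 < Real.sin (((l : ℝ) + 1) * th l) :=
          sin_pos_mul l (by positivity) (by linarith)
        have h7 : 0 < Real.sin (2 * Real.pi / 3) := by
          rw [show 2 * Real.pi / 3 = (2 * ((l : ℝ) + 2)) * th l by linear_combination (-2) * hmul]
          exact sin_pos_mul l (by positivity) (by linarith)
        have h8 : 0 ≤ Real.sin (2 * Real.pi / 3 - ((l : ℝ) + 1) * th l) := by
          rw [show 2 * Real.pi / 3 - ((l : ℝ) + 1) * th l = ((l : ℝ) + 3) * th l by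
            linear_combination (-2) * hmul]
          exact sin_nonneg_mul l (by positivity) (by linarith)
        by_contra hneg
        push Not at hneg
        nlinarith [mul_pos h6 (neg_pos.2 hneg), mul_nonneg h7.le h3, mul_nonneg h8 him]
    · right
      push Not at hK
      obtain ⟨t, ht, h1⟩ := hK
      have h2 : sg z ∈ Sec l := by
        refine ⟨by rw [im_sg]; linarith, l + 1 - t, by omega, ?_⟩
        rw [c_sg, show Real.pi / 3 - (((l + 1 - t : ℕ) : ℝ) + 1) * th l = (t : ℝ) * th l by
          rw [Nat.cast_sub ht, ← hmul]; push_cast; ring]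
        rw [c_sub, c_A l ht] at h1
        linarith
      rcases sec_step h2 with h3 | h3
      · exact Or.inl h3
      · right
        rw [nu_eq]; exact h3
  · left
    have h3pos : (0 : ℝ) < √3 / 2 := by positivity
    refine ⟨k, fun t ht => ?_, ⟨l + 1, le_rfl, ?_⟩, ?_⟩
    · rw [hAk, c_A l ht]
      have ht' : (t : ℝ) ≤ l + 1 := by exact_mod_cast ht
      have h4 := three 0 ((t : ℝ) * th l) (2 * Real.pi / 3) (z - k)
      rw [sub_zero, sub_zero, c_zero_left, c_two_pi_div_three, im_sub_nat, h_sub_nat] at h4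
      have h5 : 0 < Real.sin (2 * Real.pi / 3) := by
        rw [show 2 * Real.pi / 3 = (2 * ((l : ℝ) + 2)) * th l by linear_combination (-2) * hmul]
        exact sin_pos_mul l (by positivity) (by linarith)
      have h6 : 0 ≤ Real.sin (2 * Real.pi / 3 - (t : ℝ) * th l) := by
        rw [show 2 * Real.pi / 3 - (t : ℝ) * th l = (2 * ((l : ℝ) + 2) - t) * th l by
          linear_combination (-2) * hmul]
        exact sin_nonneg_mul l (by linarith) (by linarith [(Nat.cast_nonneg t : (0 : ℝ) ≤ t)])
      have h7 : 0 ≤ Real.sin ((t : ℝ) * th l) := sin_nonneg_mul l (Nat.cast_nonneg t) (by linarith)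
      have h8 : c ((t : ℝ) * th l) (z - k) ≤ 0 := by
        by_contra hneg
        push Not at hneg
        nlinarith [mul_pos h5 hneg, mul_nonneg h6 (neg_nonneg.2 h1),
          mul_nonneg h7 (neg_nonneg.2 h3)]
      rw [c_sub, c_natCast] at h8
      have := S_nonneg l (n := l + 1 - t) (by omega)
      linarith
    · rw [L_th, c_pi_div_three, hAh]
      have := S_top' (l := l)
      linarith
    · rw [hAh, hAi, rho]
      linarith

lemma pc_mem_R1 {b : Bool} {k : ℕ} {z : ℂ} (hz : pc l b k z ∈ T l) : z ∈ R1 := by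
  rcases b with _ | _
  · simp only [pc, Bool.false_eq_true, if_false] at hz
    have hAh : h (A l + k - z) = - S l (l + 2) - √3 / 2 * k - h z := by
      rw [h_sub, h_add, h_natCast, h_A]; ring
    have hAi : (A l + k - z).im = S l (l + 1) - z.im := by
      rw [Complex.sub_im, Complex.add_im, im_A, Complex.natCast_im, add_zero]
    have h1 := T_h_lower hz
    have h2 := T_base hz
    rw [hAh] at h1
    rw [hAh, hAi, rho] at h2
    have h3 : 0 ≤ √3 / 2 * (k : ℝ) := by positivity
    rcases le_or_gt 0 z.im with h4 | h4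
    · left
      exact ⟨h4, by linarith⟩
    · right
      refine ⟨k, h4.le, ?_, by linarith⟩
      have h5 := line_order (l := l) (z := A l + k - z) (by rw [hAi]; linarith) hz.2.1
      rw [hAh] at h5
      have := S_top' (l := l)
      linarith
  · simp only [pc, if_true] at hz
    have h1 := T_im hz
    have h2 := T_h hz
    rw [im_sub_nat, im_sg] at h1
    rw [h_sub_nat, h_sg] at h2
    have h3 : 0 ≤ √3 / 2 * (k : ℝ) := by positivity
    left
    exact ⟨by linarith, by linarith⟩

lemma nu_mem_R1 {z : ℂ} (hz : nu l z ∈ R1) : z ∈ R1 := by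
  have h1 := R1_h hz
  have h2 := R1_im hz
  rw [h_nu] at h1
  rw [im_nu] at h2
  have h3 := S_nonneg l (n := l + 1) (by omega)
  have := S_top' (l := l)
  left
  exact ⟨by linarith, by linarith⟩

lemma nu_iter_mem_R1 {z : ℂ} (m : ℕ) (hz : (nu l)^[m] z ∈ R1) : z ∈ R1 := by
  induction m generalizing z with
  | zero => exact hz
  | succ m ih =>
    rw [Function.iterate_succ_apply] at hz
    exact nu_mem_R1 (ih hz)

/-- the tiles cover the notched cone -/
lemma R1_cover (n : ℕ) : ∀ z ∈ R1, z.im < -(√3 / 2) + n * rho l →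
    ∃ (m : ℕ) (b : Bool) (k : ℕ), pc l b k ((nu l)^[m] z) ∈ T l := by
  induction n with
  | zero =>
    intro z hz h1
    have := R1_im hz
    simp only [Nat.cast_zero, zero_mul, add_zero] at h1
    linarith
  | succ n ih =>
    intro z hz h1
    rcases R1_step (l := l) hz with ⟨k, hk⟩ | ⟨k, hk⟩ | h2
    · exact ⟨0, false, k, by simpa [pc] using hk⟩
    · exact ⟨0, true, k, by simpa [pc] using hk⟩
    rcases R1_step (l := l) h2 with ⟨k, hk⟩ | ⟨k, hk⟩ | h3
    · exact ⟨1, false, k, by simpa [pc] using hk⟩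
    · exact ⟨1, true, k, by simpa [pc] using hk⟩
    obtain ⟨m, b, k, hk⟩ := ih _ h3 (by
      rw [im_nu_nu]
      push_cast at h1
      linarith)
    exact ⟨m + 2, b, k, by
      rw [Function.iterate_succ_apply, Function.iterate_succ_apply]; exact hk⟩

variable (l)

/-- index type of the tiles in one sector -/
abbrev Idx := ℕ ⊕ (ℕ × Bool × ℕ)

/-- placing maps of the tiles in one sector -/
noncomputable def sm : Idx → ℂ → ℂ
  | Sum.inl k, z => z - k
  | Sum.inr (m, b, k), z => pc l b k ((nu l)^[m] (z - q l))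

variable {l}

lemma sec_cover {z : ℂ} (hz : z ∈ Sec l) : ∃ i, sm l i z ∈ T l := by
  rcases sec_step hz with ⟨k, hk⟩ | h1
  · exact ⟨Sum.inl k, hk⟩
  · have hrho := rho_pos l
    obtain ⟨n, hn⟩ := exists_nat_gt (((z - q l).im + √3 / 2) / rho l)
    rw [div_lt_iff₀ hrho] at hn
    obtain ⟨m, b, k, hk⟩ := R1_cover (l := l) n _ h1 (by linarith)
    exact ⟨Sum.inr (m, b, k), hk⟩

lemma sm_mem_Sec {i : Idx} {z : ℂ} (hz : sm l i z ∈ T l) : z ∈ Sec l := by
  rcases i with k | ⟨m, b, k⟩
  · simp only [sm] at hz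
    have h1 := T_im hz
    rw [im_sub_nat] at h1
    obtain ⟨t, ht, h2⟩ := hz.2.1
    refine ⟨h1, t, ht, ?_⟩
    rw [c_sub, c_natCast] at h2
    have := mul_nonneg (sin_line_pos ht).le (Nat.cast_nonneg k : (0 : ℝ) ≤ k)
    linarith
  · simp only [sm] at hz
    have h1 := nu_iter_mem_R1 m (pc_mem_R1 hz)
    have h2 := R1_h h1
    have h3 := R1_im h1
    rw [h_sub, h_q] at h2
    rw [Complex.sub_im, im_q] at h3
    have h4 := S_nonneg l (n := l + 1) (by omega)
    have := S_top' (l := l)
    refine ⟨by linarith, l + 1, le_rfl, ?_⟩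
    rw [L_th, c_pi_div_three]
    linarith

/-- horizontal translates do not overlap -/
lemma disj_shift {p : ℂ} (hp : p ∈ interior (T l)) {n : ℕ} (hn : 1 ≤ n)
    (h1 : p - n ∈ T l) : False := by
  obtain ⟨t, ht, h2⟩ := h1.2.1
  rw [c_sub, c_natCast] at h2
  have hn' : (1 : ℝ) ≤ n := by exact_mod_cast hn
  have h3 := sin_line_pos ht
  have h4 : c (((t : ℝ) + 1) * th l) p + S l (t + 1) ≤ 0 := by
    rw [S_succ]
    have := mul_le_mul_of_nonneg_left hn' h3.le
    linarith
  rcases Nat.lt_or_ge t (l + 1) with h5 | h5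
  · have h6 := int_right hp (t := t + 1) (by omega)
    push_cast at h6
    linarith
  · have h6 : t = l + 1 := by omega
    subst h6
    rw [L_th, c_pi_div_three] at h4
    have := int_h_lower hp
    linarith

lemma disj_R1 {p : ℂ} (hp : p ∈ interior (T l)) {k : ℕ} (h1 : p + k - q l ∈ R1) : False := by
  have hh : h (p + k - q l) = h p - √3 / 2 * k + S l (l + 1) := by
    rw [h_sub, h_add, h_natCast, h_q]; ring
  have hi : (p + k - q l).im = p.im - S l (l + 2) := by
    rw [Complex.sub_im, Complex.add_im, im_q, Complex.natCast_im, add_zero]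
  have hlt := int_im_lt hp
  have hbase := int_base hp
  have hs := S_top' (l := l)
  rw [rho] at hbase
  rcases h1 with ⟨h2, _⟩ | ⟨j, h2, h3, h4⟩
  · rw [hi] at h2; linarith
  · rw [hh] at h3
    rw [hh, hi] at h4
    have h5 : (0 : ℝ) < √3 / 2 := by positivity
    have h6 : j < k := by
      by_contra hcon
      push Not at hcon
      have : (k : ℝ) ≤ j := by exact_mod_cast hcon
      have := mul_le_mul_of_nonneg_left this h5.le
      linarith
    have h7 : (j : ℝ) + 1 ≤ k := by exact_mod_cast h6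
    have h8 := mul_le_mul_of_nonneg_left h7 h5.le
    have h9 : S l (l + 1) ≤ p.im := by linarith
    have := int_order hp h9
    linarith

lemma disj_ab {z : ℂ} {k n : ℕ} (h1 : A l + k - z ∈ interior (T l)) (h2 : sg z - n ∈ T l) :
    False := by
  obtain ⟨t, ht, h3⟩ := h2.2.1
  rw [c_sub, c_natCast, c_sg, show Real.pi / 3 - ((t : ℝ) + 1) * th l = ((l + 1 - t : ℕ) : ℝ) * th l by
    rw [Nat.cast_sub ht, ← mul_th l]; push_cast; ring] at h3
  have h4 := mul_nonneg (sin_line_pos ht).le (Nat.cast_nonneg n : (0 : ℝ) ≤ n)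
  have h5 := int_right h1 (t := l + 1 - t) (by omega)
  rw [c_sub, c_add, c_natCast, c_A l (by omega), show l + 1 - (l + 1 - t) = t by omega] at h5
  have h6 : 0 ≤ Real.sin (((l + 1 - t : ℕ) : ℝ) * th l) := by
    apply sin_nonneg_mul l (Nat.cast_nonneg _)
    have : ((l + 1 - t : ℕ) : ℝ) ≤ ((l + 1 : ℕ) : ℝ) := by exact_mod_cast (by omega : l + 1 - t ≤ l + 1)
    push_cast at this
    linarith [(Nat.cast_nonneg l : (0 : ℝ) ≤ l)]
  have h7 := mul_nonneg h6 (Nat.cast_nonneg k : (0 : ℝ) ≤ k)
  linarith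

lemma disj_nu {z : ℂ} {b : Bool} {k : ℕ} (h1 : pc l b k z ∈ interior (T l)) (h2 : nu l z ∈ R1) :
    False := by
  rcases b with _ | _
  · simp only [pc, Bool.false_eq_true, if_false] at h1
    have h3 := int_im h1
    rw [Complex.sub_im, Complex.add_im, im_A, Complex.natCast_im, add_zero] at h3
    have h4 := R1_h h2
    rw [h_nu] at h4
    linarith
  · simp only [pc, if_true] at h1
    apply disj_R1 h1 (k := k)
    rw [show sg z - k + k - q l = nu l z by rw [nu_eq]; ring]
    exact h2

lemma disj_pc {z : ℂ} {b b' : Bool} {k k' : ℕ} (h1 : pc l b k z ∈ interior (T l))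
    (h2 : pc l b' k' z ∈ interior (T l)) : b = b' ∧ k = k' := by
  rcases b with _ | _ <;> rcases b' with _ | _ <;>
    simp only [pc, Bool.false_eq_true, if_false, if_true] at h1 h2
  · refine ⟨rfl, ?_⟩
    rcases lt_trichotomy k k' with h3 | h3 | h3
    · exfalso
      apply disj_shift h2 (n := k' - k) (by omega)
      rw [Nat.cast_sub h3.le, show A l + k' - z - ((k' : ℂ) - k) = A l + k - z by ring]
      exact interior_subset h1
    · exact h3
    · exfalso
      apply disj_shift h1 (n := k - k') (by omega)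
      rw [Nat.cast_sub h3.le, show A l + k - z - ((k : ℂ) - k') = A l + k' - z by ring]
      exact interior_subset h2
  · exact (disj_ab h1 (interior_subset h2)).elim
  · exact (disj_ab h2 (interior_subset h1)).elim
  · refine ⟨rfl, ?_⟩
    rcases lt_trichotomy k k' with h3 | h3 | h3
    · exfalso
      apply disj_shift h1 (n := k' - k) (by omega)
      rw [Nat.cast_sub h3.le, show sg z - k - ((k' : ℂ) - k) = sg z - k' by ring]
      exact interior_subset h2
    · exact h3
    · exfalso
      apply disj_shift h2 (n := k - k') (by omega)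
      rw [Nat.cast_sub h3.le, show sg z - k' - ((k : ℂ) - k') = sg z - k by ring]
      exact interior_subset h1

lemma disj_iter {z : ℂ} {b b' : Bool} {k k' m m' : ℕ} (hm : m < m')
    (h1 : pc l b k ((nu l)^[m] z) ∈ interior (T l))
    (h2 : pc l b' k' ((nu l)^[m'] z) ∈ T l) : False := by
  obtain ⟨d, hd⟩ : ∃ d, m' = d + 1 + m := ⟨m' - m - 1, by omega⟩
  rw [hd, Function.iterate_add_apply, Function.iterate_succ_apply] at h2
  exact disj_nu h1 (nu_iter_mem_R1 d (pc_mem_R1 h2))

/-- the tiles in a sector do not overlap -/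
lemma sec_disj {i j : Idx} {z : ℂ} (h1 : sm l i z ∈ interior (T l))
    (h2 : sm l j z ∈ interior (T l)) : i = j := by
  rcases i with k | ⟨m, b, k⟩ <;> rcases j with k' | ⟨m', b', k'⟩ <;> simp only [sm] at h1 h2
  · rcases lt_trichotomy k k' with h3 | h3 | h3
    · exfalso
      apply disj_shift h1 (n := k' - k) (by omega)
      rw [Nat.cast_sub h3.le, show z - k - ((k' : ℂ) - k) = z - k' by ring]
      exact interior_subset h2
    · rw [h3]
    · exfalso
      apply disj_shift h2 (n := k - k') (by omega)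
      rw [Nat.cast_sub h3.le, show z - k' - ((k : ℂ) - k') = z - k by ring]
      exact interior_subset h1
  · exfalso
    apply disj_R1 h1 (k := k)
    rw [show z - k + k - q l = z - q l by ring]
    exact nu_iter_mem_R1 m' (pc_mem_R1 (interior_subset h2))
  · exfalso
    apply disj_R1 h2 (k := k')
    rw [show z - k' + k' - q l = z - q l by ring]
    exact nu_iter_mem_R1 m (pc_mem_R1 (interior_subset h1))
  · rcases lt_trichotomy m m' with h3 | h3 | h3
    · exact (disj_iter h3 h1 (interior_subset h2)).elim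
    · subst h3
      obtain ⟨h4, h5⟩ := disj_pc h1 h2
      rw [h4, h5]
    · exact (disj_iter h3 h2 (interior_subset h1)).elim

/-- the only tile of the sector touching the lower part of its boundary -/
lemma sec_unique {z : ℂ} (h0 : ∀ t : ℕ, t ≤ l + 1 → 0 ≤ c (((t : ℝ) + 1) * th l) z + S l t)
    (h1 : z.im < S l (l + 2)) {i : Idx} (hi : sm l i z ∈ T l) : i = Sum.inl 0 := by
  have h2 := h0 (l + 1) le_rfl
  rw [L_th, c_pi_div_three] at h2
  rcases i with k | ⟨m, b, k⟩ <;> simp only [sm] at hi
  · rcases Nat.eq_zero_or_pos k with h3 | h3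
    · rw [h3]
    · exfalso
      obtain ⟨t, ht, h4⟩ := hi.2.1
      rw [c_sub, c_natCast] at h4
      have h5 := h0 t ht
      have h6 : (0 : ℝ) < k := by exact_mod_cast h3
      have := mul_pos (sin_line_pos ht) h6
      linarith
  · exfalso
    have h3 := nu_iter_mem_R1 m (pc_mem_R1 hi)
    have hh : h (z - q l) = h z + S l (l + 1) := by rw [h_sub, h_q]; ring
    have hi : (z - q l).im = z.im - S l (l + 2) := by rw [Complex.sub_im, im_q]
    rcases h3 with ⟨h4, _⟩ | ⟨j, h4, h5, h6⟩
    · rw [hi] at h4; linarith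
    · rw [hh, hi] at h6
      have : 0 ≤ √3 / 2 * (j : ℝ) := by positivity
      linarith

end Pool.Agent.H32Tile
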